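import Mathlib

/-!
# Sparse polynomials with many positive roots vanish (the rule of signs)
-/

set_option autoImplicit false

namespace Pool.Agent.V1138.SP

open Polynomial

theorem signVar_lt_card (p : ℚ[X]) (hp : p ≠ 0) : p.signVariations < p.support.card := by
  have key : ∀ n : ℕ, ∀ p : ℚ[X], p.support.card ≤ n → p ≠ 0 →
      p.signVariations < p.support.card := by
    intro n
    induction n with
    | zero =>
      intro p h hp
      exact absurd (Polynomial.support_eq_empty.1 (Finset.card_eq_zero.1 (Nat.le_zero.1 h))) hp
    | succ n ih =>
      intro p h hp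
      have h1 : p.eraseLead.support.card < p.support.card := eraseLead_support_card_lt hp
      by_cases h0 : p.eraseLead = 0
      · have h2 := p.eraseLead_add_monomial_natDegree_leadingCoeff
        rw [h0, zero_add] at h2
        rw [← h2, signVariations_monomial]
        rw [h2]
        exact Finset.card_pos.2 (support_nonempty.2 hp)
      · have h2 := ih p.eraseLead (by omega) h0
        have h3 := p.signVariations_le_eraseLead_succ
        omega
  exact key _ p le_rfl hp

theorem desc {k : ℕ} (c : Fin (k + 1) → ℚ) (N : Fin (k + 1) → ℕ) (hN : Function.Injective N)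
    (A : Finset ℚ) (hA : ∀ α ∈ A, 0 < α) (hcard : k + 1 ≤ A.card)
    (h : ∀ α ∈ A, ∑ i, c i * α ^ (N i) = 0) : c = 0 := by
  classical
  set p : ℚ[X] := ∑ i, monomial (N i) (c i) with hpd
  have hcoef : ∀ i, p.coeff (N i) = c i := by
    intro i
    rw [hpd, finsetSum_coeff, Finset.sum_eq_single i]
    · simp
    · intro j _ hj
      rw [coeff_monomial, if_neg (fun h => hj (hN h))]
    · intro h
      exact absurd (Finset.mem_univ _) h
  by_cases hp : p = 0
  · funext i
    rw [← hcoef, hp]
    simp
  exfalso
  have h1 := signVar_lt_card p hp
  have h2 : p.support.card ≤ k + 1 := by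
    have h3 : p.support ⊆ Finset.univ.image N := by
      intro m hm
      rw [mem_support_iff] at hm
      by_contra hc
      apply hm
      rw [hpd, finsetSum_coeff]
      refine Finset.sum_eq_zero fun i _ => ?_
      rw [coeff_monomial, if_neg]
      intro h4
      exact hc (Finset.mem_image.2 ⟨i, Finset.mem_univ _, h4⟩)
    refine (Finset.card_le_card h3).trans (Finset.card_image_le.trans ?_)
    simp
  have h3 := p.roots_countP_pos_le_signVariations
  have h4 : A.card ≤ p.roots.countP (0 < ·) := by
    have h5 : A.val ≤ p.roots.filter (0 < ·) := by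
      rw [Multiset.le_iff_subset A.nodup]
      intro α hα
      rw [Multiset.mem_filter, mem_roots hp]
      refine ⟨?_, hA α hα⟩
      rw [IsRoot, hpd, eval_finsetSum, ← h α hα]
      exact Finset.sum_congr rfl fun i _ => by rw [eval_monomial]
    have h6 := Multiset.card_le_card h5
    rw [Multiset.countP_eq_card_filter]
    exact h6
  omega

end Pool.Agent.V1138.SP
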