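import Mathlib

/-!
# Comparing the leading terms of an identity with many rows
-/

set_option autoImplicit false

namespace Pool.Agent.V1138.SP

theorem top {G D : Type*} [Zero G] [LinearOrder D] (F : D →₀ G) (hF : F ≠ 0) :
    ∃ d, F d ≠ 0 ∧ ∀ d', d < d' → F d' = 0 := by
  classical
  have h : F.support.Nonempty := Finsupp.support_nonempty_iff.2 hF
  refine ⟨F.support.max' h, Finsupp.mem_support_iff.1 (F.support.max'_mem h), fun d' hd' => ?_⟩
  by_contra hc
  exact absurd (F.support.le_max' d' (Finsupp.mem_support_iff.2 hc)) (not_le.2 hd')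

theorem partB {G D V : Type*} [Field G] [AddCommGroup D] [LinearOrder D] [IsOrderedAddMonoid D]
    (R : D → AddSubgroup G) {k C : ℕ} (hC : 3 * k * (k + 1) + 1 ≤ C)
    (ν : Fin (k + 1) → V) (e : Fin C → Fin (k + 1) → D) (x : Fin C → Fin (k + 1) → G)
    (ω : Fin C → D) (w : Fin C → G) (a : Fin (k + 1) → G)
    (ha : ∀ i, a i ≠ 0) (hw0 : ∀ l, w l ≠ 0)
    (hν1 : ∀ i j, ν i = ν j → ∀ l, e l i = e l j)
    (hν2 : ∀ i j, ν i ≠ ν j → Function.Injective fun l => e l i - e l j)
    (hw : ∀ l, ∑ i, a i * x l i = w l)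
    (hV : ∀ S : Finset (Fin C), k + 1 ≤ S.card → ∀ c : Fin (k + 1) → G,
      (∀ l ∈ S, ∑ i, c i * x l i = 0) → c = 0)
    (P : Fin (k + 1) → D →₀ G) (Q : D →₀ G) (hP : ∀ i d, P i d ∈ R d) (hP0 : ∀ i, P i ≠ 0)
    (hQ0 : Q ≠ 0)
    (hI : ∀ l m, ∑ i, P i (m - e l i) * x l i = Q (m - ω l) * w l) :
    (∀ i j, ν i = ν j) ∧ ∃ d q, q ≠ 0 ∧ ∀ j, a j * q ∈ R d := by
  classical
  choose d hd hd' using fun i => top (P i) (hP0 i)
  obtain ⟨δ, hδ, hδ'⟩ := top Q hQ0
  have hmx : ∀ l, ∃ i, ∀ j, d j + e l j ≤ d i + e l i := fun l =>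
    Finite.exists_max fun i => d i + e l i
  choose μ hμ using hmx
  set M : Fin C → D := fun l => d (μ l) + e l (μ l) with hM
  have key : ∀ l, ∑ i, (if d i + e l i = M l then P i (d i) else 0) * x l i =
      Q (M l - ω l) * w l := by
    intro l
    rw [← hI l (M l)]
    refine Finset.sum_congr rfl fun i _ => ?_
    split_ifs with h
    · rw [← h, add_sub_cancel_right]
    · rw [hd' i (M l - e l i), zero_mul]
      exact lt_sub_iff_add_lt.2 (lt_of_le_of_ne (hμ l i) h)
  have hle : ∀ l, δ + ω l ≤ M l := by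
    intro l
    by_contra hc
    push Not at hc
    have h1 := hI l (δ + ω l)
    rw [Finset.sum_eq_zero, add_sub_cancel_right] at h1
    · exact mul_ne_zero hδ (hw0 l) h1.symm
    · intro i _
      rw [hd' i (δ + ω l - e l i), zero_mul]
      exact lt_sub_iff_add_lt.2 ((hμ l i).trans_lt hc)
  -- rows without ties
  set Nt : Finset (Fin C) := Finset.univ.filter fun l =>
    ∀ i j, d i + e l i = M l → d j + e l j = M l → ν i = ν j with hNt
  have hcompl : Ntᶜ.card ≤ k * (k + 1) := by
    have h1 : ∀ l, l ∈ Ntᶜ → ∃ p : Fin (k + 1) × Fin (k + 1),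
        d p.1 + e l p.1 = M l ∧ d p.2 + e l p.2 = M l ∧ ν p.1 ≠ ν p.2 := by
      intro l hl
      rw [Finset.mem_compl, hNt, Finset.mem_filter] at hl
      push Not at hl
      obtain ⟨i, j, h2, h3, h4⟩ := hl (Finset.mem_univ _)
      exact ⟨(i, j), h2, h3, h4⟩
    have h2 : ∀ l, ∃ p : Fin (k + 1) × Fin (k + 1), l ∈ Ntᶜ →
        d p.1 + e l p.1 = M l ∧ d p.2 + e l p.2 = M l ∧ ν p.1 ≠ ν p.2 := by
      intro l
      by_cases hl : l ∈ Ntᶜ
      · obtain ⟨p, hp⟩ := h1 l hl
        exact ⟨p, fun _ => hp⟩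
      · exact ⟨(0, 0), fun h => absurd h hl⟩
    choose p hp using h2
    have h3 : Ntᶜ.card ≤ (Finset.univ : Finset (Fin (k + 1))).offDiag.card := by
      refine Finset.card_le_card_of_injOn p ?_ ?_
      · intro l hl
        rw [Finset.mem_coe, Finset.mem_offDiag]
        refine ⟨Finset.mem_univ _, Finset.mem_univ _, fun h => ?_⟩
        exact (hp l hl).2.2 (congrArg ν h)
      · intro l hl l' hl' hll
        obtain ⟨h4, h5, h6⟩ := hp l hl
        obtain ⟨h4', h5', h6'⟩ := hp l' hl'
        rw [← hll] at h4' h5'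
        apply hν2 _ _ h6
        show e l (p l).1 - e l (p l).2 = e l' (p l).1 - e l' (p l).2
        have h7 : d (p l).1 + e l (p l).1 = d (p l).2 + e l (p l).2 := h4.trans h5.symm
        have h8 : d (p l).1 + e l' (p l).1 = d (p l).2 + e l' (p l).2 := h4'.trans h5'.symm
        have h9 : e l (p l).1 - e l (p l).2 = d (p l).2 - d (p l).1 := by
          rw [sub_eq_sub_iff_add_eq_add, add_comm, h7]
        have h10 : e l' (p l).1 - e l' (p l).2 = d (p l).2 - d (p l).1 := by
          rw [sub_eq_sub_iff_add_eq_add, add_comm, h8]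
        rw [h9, h10]
    rw [Finset.offDiag_card, Finset.card_univ, Fintype.card_fin] at h3
    have h4 : (k + 1) * (k + 1) - (k + 1) = k * (k + 1) := by
      rw [Nat.succ_mul]
      simp
    omega
  have hNtc : 2 * k * (k + 1) + 1 ≤ Nt.card := by
    have h1 := Finset.card_add_card_compl Nt
    rw [Fintype.card_fin] at h1
    have h2 : 3 * k * (k + 1) = 2 * k * (k + 1) + k * (k + 1) := by ring
    omega
  obtain ⟨i, -, hi⟩ := Finset.exists_lt_card_fiber_of_mul_lt_card_of_maps_to
    (s := Nt) (t := Finset.univ) (f := μ) (n := 2 * k) (fun _ _ => Finset.mem_univ _) (by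
      rw [Finset.card_univ, Fintype.card_fin]
      have : (k + 1) * (2 * k) = 2 * k * (k + 1) := by ring
      omega)
  set S : Finset (Fin C) := Nt.filter fun l => μ l = i with hS
  have hT : ∀ l ∈ S, ∀ j, (d j + e l j = M l ↔ ν j = ν i ∧ d j = d i) := by
    intro l hl j
    rw [hS, Finset.mem_filter, hNt, Finset.mem_filter] at hl
    obtain ⟨⟨-, h1⟩, h2⟩ := hl
    have hMl : M l = d i + e l i := by rw [hM]; simp only [h2]
    constructor
    · intro h3
      have h4 := h1 j i h3 hMl.symm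
      refine ⟨h4, ?_⟩
      have h5 := hν1 j i h4 l
      rw [hMl, h5] at h3
      exact add_right_cancel h3
    · rintro ⟨h3, h4⟩
      rw [hMl, h4, hν1 j i h3 l]
  set c0 : Fin (k + 1) → G := fun j => if ν j = ν i ∧ d j = d i then P j (d j) else 0 with hc0
  have key2 : ∀ l ∈ S, ∑ j, c0 j * x l j = Q (M l - ω l) * w l := by
    intro l hl
    rw [← key l]
    refine Finset.sum_congr rfl fun j _ => ?_
    rw [hc0]
    simp only [hT l hl j]
  have hc0i : c0 i ≠ 0 := by
    rw [hc0]
    simp only [and_self, if_true]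
    exact hd i
  -- the rows where the right side does not contribute
  have hcase0 : (S.filter fun l => δ + ω l ≠ M l).card ≤ k := by
    by_contra hc
    push Not at hc
    have h1 := hV (S.filter fun l => δ + ω l ≠ M l) hc c0 (by
      intro l hl
      rw [Finset.mem_filter] at hl
      rw [key2 l hl.1, hδ' (M l - ω l) (lt_sub_iff_add_lt.2 (lt_of_le_of_ne (hle l) hl.2)),
        zero_mul])
    exact hc0i (congrFun h1 i)
  have hcase1 : k + 1 ≤ (S.filter fun l => ¬ (δ + ω l ≠ M l)).card := by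
    have h1 := Finset.card_filter_add_card_filter_not (s := S) (fun l => δ + ω l ≠ M l)
    omega
  have h2 := hV _ hcase1 (fun j => c0 j - Q δ * a j) (by
    intro l hl
    rw [Finset.mem_filter] at hl
    have h3 : M l - ω l = δ := by
      rw [← not_not.1 hl.2, add_sub_cancel_right]
    have h4 := key2 l hl.1
    rw [h3, ← hw l] at h4
    simp only [sub_mul, Finset.sum_sub_distrib]
    rw [h4, Finset.mul_sum, sub_eq_zero]
    exact Finset.sum_congr rfl fun j _ => by ring)
  have h3 : ∀ j, c0 j = Q δ * a j := fun j => sub_eq_zero.1 (congrFun h2 j)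
  have h4 : ∀ j, ν j = ν i ∧ d j = d i := by
    intro j
    by_contra hc
    have h5 := h3 j
    rw [hc0] at h5
    simp only [if_neg hc] at h5
    exact mul_ne_zero hδ (ha j) h5.symm
  refine ⟨fun j j' => (h4 j).1.trans (h4 j').1.symm, d i, Q δ, hδ, fun j => ?_⟩
  have h5 := h3 j
  rw [hc0] at h5
  simp only [if_pos (h4 j)] at h5
  rw [mul_comm, ← h5, (h4 j).2]
  exact hP j _

end Pool.Agent.V1138.SP
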