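import Mathlib
import Pool.Agent.V1138.SP.Comb

/-!
# Sums with few terms over a field with an independent grading
-/

set_option autoImplicit false

namespace Pool.Agent.V1138.SP

/-- a family of subgroups, multiplicative and independent -/
structure Grad {G D : Type*} [Field G] [AddCommGroup D] (R : D → AddSubgroup G) : Prop where
  one_mem : (1 : G) ∈ R 0
  mul_mem : ∀ d e x y, x ∈ R d → y ∈ R e → x * y ∈ R (d + e)
  indep : ∀ f : D →₀ G, (∀ d, f d ∈ R d) → (f.sum fun _ x => x) = 0 → f = 0

variable {G D : Type*} [Field G] [AddCommGroup D]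

/-- the ring of formal sums of homogeneous elements -/
def RR (R : D → AddSubgroup G) (hR : Grad R) : Subring (AddMonoidAlgebra G D) where
  carrier := {F | ∀ d, F.coeff d ∈ R d}
  mul_mem' := by
    classical
    intro F H hF hH d
    rw [AddMonoidAlgebra.coeff_mul]
    refine AddSubgroup.sum_mem _ fun d1 _ => AddSubgroup.sum_mem _ fun d2 _ => ?_
    dsimp only
    split_ifs with h
    · rw [← h]
      exact hR.mul_mem _ _ _ _ (hF d1) (hH d2)
    · exact (R d).zero_mem
  one_mem' := by
    classical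
    intro d
    rw [AddMonoidAlgebra.one_def, AddMonoidAlgebra.coeff_single, Finsupp.single_apply]
    split_ifs with h
    · rw [← h]
      exact hR.one_mem
    · exact (R d).zero_mem
  add_mem' := by
    intro F H hF hH d
    rw [AddMonoidAlgebra.coeff_add, Finsupp.add_apply]
    exact (R d).add_mem (hF d) (hH d)
  zero_mem' := by
    intro d
    rw [AddMonoidAlgebra.coeff_zero, Finsupp.zero_apply]
    exact (R d).zero_mem
  neg_mem' := by
    intro F hF d
    rw [AddMonoidAlgebra.coeff_neg, Finsupp.neg_apply]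
    exact (R d).neg_mem (hF d)

/-- the sum of the coefficients -/
noncomputable def sm : AddMonoidAlgebra G D →+* G :=
  (AddMonoidAlgebra.lift G G D (1 : Multiplicative D →* G)).toRingHom

theorem sm_apply (F : AddMonoidAlgebra G D) : sm F = F.coeff.sum fun _ x => x := by
  show (AddMonoidAlgebra.lift G G D (1 : Multiplicative D →* G)) F = _
  rw [AddMonoidAlgebra.lift_apply]
  refine Finset.sum_congr rfl fun d _ => ?_
  simp

theorem sm_single (d : D) (x : G) : sm (AddMonoidAlgebra.single d x) = x := by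
  show (AddMonoidAlgebra.lift G G D (1 : Multiplicative D →* G)) _ = _
  rw [AddMonoidAlgebra.lift_single]
  simp

/-- the sum of the coefficients, on formal sums of homogeneous elements -/
noncomputable def smR (R : D → AddSubgroup G) (hR : Grad R) : RR R hR →+* G :=
  sm.comp (RR R hR).subtype

theorem smR_inj (R : D → AddSubgroup G) (hR : Grad R) : Function.Injective (smR R hR) := by
  rw [injective_iff_map_eq_zero]
  intro F hF
  have h1 : sm (F : AddMonoidAlgebra G D) = 0 := hF
  rw [sm_apply] at h1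
  have h2 := hR.indep _ F.2 h1
  apply Subtype.ext
  apply AddMonoidAlgebra.ext
  rw [h2]
  rfl

/-- a homogeneous element as a formal sum -/
noncomputable def hm (R : D → AddSubgroup G) (hR : Grad R) (d : D) (x : G) (hx : x ∈ R d) :
    RR R hR :=
  ⟨AddMonoidAlgebra.single d x, by
    classical
    intro d'
    rw [AddMonoidAlgebra.coeff_single, Finsupp.single_apply]
    split_ifs with h
    · rw [← h]
      exact hx
    · exact (R d').zero_mem⟩

theorem smR_hm (R : D → AddSubgroup G) (hR : Grad R) (d : D) (x : G) (hx : x ∈ R d) :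
    smR R hR (hm R hR d x hx) = x := sm_single d x

theorem partA [LinearOrder D] [IsOrderedAddMonoid D] (R : D → AddSubgroup G) (hR : Grad R)
    {k C : ℕ} (hC : k + 1 ≤ C)
    (e : Fin C → Fin (k + 1) → D) (x : Fin C → Fin (k + 1) → G)
    (hx : ∀ l i, x l i ∈ R (e l i))
    (ω : Fin C → D) (w : Fin C → G) (hwR : ∀ l, w l ∈ R (ω l)) (a : Fin (k + 1) → G)
    (ha : ∀ i, a i ≠ 0)
    (hw : ∀ l, ∑ i, a i * x l i = w l)
    (hV : ∀ S : Finset (Fin C), k + 1 ≤ S.card → ∀ c : Fin (k + 1) → G,
      (∀ l ∈ S, ∑ i, c i * x l i = 0) → c = 0) :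
    ∃ (P : Fin (k + 1) → D →₀ G) (Q : D →₀ G), (∀ i d, P i d ∈ R d) ∧ (∀ i, P i ≠ 0) ∧
      Q ≠ 0 ∧ ∀ l m, ∑ i, P i (m - e l i) * x l i = Q (m - ω l) * w l := by
  classical
  let ρ : Fin (k + 1) → Fin C := Fin.castLE hC
  have hρ : Function.Injective ρ := Fin.castLE_injective hC
  let X : Matrix (Fin (k + 1)) (Fin (k + 1)) (RR R hR) := fun r i =>
    hm R hR (e (ρ r) i) (x (ρ r) i) (hx _ _)
  let B : Fin (k + 1) → RR R hR := fun r => hm R hR (ω (ρ r)) (w (ρ r)) (hwR _)
  let ε := smR R hR
  let P := X.cramer B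
  let Δ := X.det
  have hXε : ∀ r i, ε (X r i) = x (ρ r) i := fun r i => smR_hm R hR _ _ _
  have hBε : ∀ r, ε (B r) = w (ρ r) := fun r => smR_hm R hR _ _ _
  have hdet : (ε.mapMatrix X).det ≠ 0 := by
    intro h
    obtain ⟨v, hv, h1⟩ := Matrix.exists_mulVec_eq_zero_iff.2 h
    apply hv
    refine hV (Finset.univ.image ρ) ?_ v ?_
    · rw [Finset.card_image_of_injective _ hρ, Finset.card_univ, Fintype.card_fin]
    · intro l hl
      obtain ⟨r, -, rfl⟩ := Finset.mem_image.1 hl
      have h2 := congrFun h1 r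
      rw [Matrix.mulVec, dotProduct, Pi.zero_apply] at h2
      rw [← h2]
      refine Finset.sum_congr rfl fun i _ => ?_
      show v i * x (ρ r) i = ε (X r i) * v i
      rw [hXε, mul_comm]
  have hΔ : ε Δ ≠ 0 := by
    rw [RingHom.map_det]
    exact hdet
  have hmul : ∀ r, ∑ i, X r i * P i = Δ * B r := by
    intro r
    have h1 := congrFun (X.mulVec_cramer B) r
    rw [Matrix.mulVec, dotProduct, Pi.smul_apply, smul_eq_mul] at h1
    exact h1
  have hPε : ∀ i, ε (P i) = ε Δ * a i := by
    have h1 : (fun i => ε (P i) - ε Δ * a i) = 0 := by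
      apply Matrix.eq_zero_of_mulVec_eq_zero hdet
      funext r
      rw [Matrix.mulVec, dotProduct, Pi.zero_apply]
      have h2 := congrArg ε (hmul r)
      rw [map_sum, map_mul, hBε, ← hw (ρ r)] at h2
      simp only [map_mul, hXε] at h2
      have h3 : ∀ i, (ε.mapMatrix X) r i * (ε (P i) - ε Δ * a i) =
          x (ρ r) i * ε (P i) - ε Δ * (a i * x (ρ r) i) := by
        intro i
        show ε (X r i) * _ = _
        rw [hXε]
        ring
      rw [Finset.sum_congr rfl fun i _ => h3 i, Finset.sum_sub_distrib, h2, ← Finset.mul_sum,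
        sub_self]
    intro i
    exact sub_eq_zero.1 (congrFun h1 i)
  have hId : ∀ l, ∑ i, P i * hm R hR (e l i) (x l i) (hx l i) =
      Δ * hm R hR (ω l) (w l) (hwR l) := by
    intro l
    apply smR_inj R hR
    rw [map_sum, map_mul, smR_hm, ← hw l, Finset.mul_sum]
    refine Finset.sum_congr rfl fun i _ => ?_
    rw [map_mul, smR_hm]
    have := hPε i
    rw [show smR R hR (P i) = ε (P i) from rfl, this]
    rw [mul_assoc]
  refine ⟨fun i => (P i : AddMonoidAlgebra G D).coeff, (Δ : AddMonoidAlgebra G D).coeff,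
    fun i d => (P i).2 d, ?_, ?_, ?_⟩
  · intro i h
    have h1 : ε (P i) = 0 := by
      show sm (P i : AddMonoidAlgebra G D) = 0
      rw [sm_apply]
      have h' : (P i : AddMonoidAlgebra G D).coeff = 0 := h
      rw [h']
      simp
    rw [hPε i] at h1
    exact mul_ne_zero hΔ (ha i) h1
  · intro h
    apply hΔ
    show sm (Δ : AddMonoidAlgebra G D) = 0
    rw [sm_apply, h]
    simp
  · intro l m
    have h1 := congrArg (fun F : RR R hR => (F : AddMonoidAlgebra G D).coeff m) (hId l)
    simp only [AddSubmonoidClass.coe_finsetSum, MulMemClass.coe_mul] at h1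
    rw [AddMonoidAlgebra.coeff_sum, Finsupp.finsetSum_apply] at h1
    have h2 : ∀ (F : AddMonoidAlgebra G D) (d : D) (y : G) (hy : y ∈ R d),
        (F * (hm R hR d y hy : AddMonoidAlgebra G D)).coeff m = F.coeff (m - d) * y := by
      intro F d y hy
      show (F * AddMonoidAlgebra.single d y).coeff m = _
      rw [AddMonoidAlgebra.coeff_mul_single_apply, sub_eq_add_neg]
    simp only [h2] at h1
    exact h1

/-- the abstract statement -/
theorem abs [LinearOrder D] [IsOrderedAddMonoid D] {V : Type*} (R : D → AddSubgroup G)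
    (hR : Grad R) {k C : ℕ} (hC : 3 * k * (k + 1) + 1 ≤ C) (ν : Fin (k + 1) → V)
    (e : Fin C → Fin (k + 1) → D) (x : Fin C → Fin (k + 1) → G)
    (hx : ∀ l i, x l i ∈ R (e l i))
    (ω : Fin C → D) (w : Fin C → G) (hwR : ∀ l, w l ∈ R (ω l)) (a : Fin (k + 1) → G)
    (ha : ∀ i, a i ≠ 0) (hw0 : ∀ l, w l ≠ 0)
    (hν1 : ∀ i j, ν i = ν j → ∀ l, e l i = e l j)
    (hν2 : ∀ i j, ν i ≠ ν j → Function.Injective fun l => e l i - e l j)
    (hw : ∀ l, ∑ i, a i * x l i = w l)
    (hV : ∀ S : Finset (Fin C), k + 1 ≤ S.card → ∀ c : Fin (k + 1) → G,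
      (∀ l ∈ S, ∑ i, c i * x l i = 0) → c = 0) :
    (∀ i j, ν i = ν j) ∧ ∃ d q, q ≠ 0 ∧ ∀ j, a j * q ∈ R d := by
  have hkC : k + 1 ≤ C := by
    refine le_trans ?_ hC
    rcases Nat.eq_zero_or_pos k with h | h
    · rw [h]
    · have : k * 1 ≤ k * (k + 1) := Nat.mul_le_mul_left _ (by omega)
      have h3 : 3 * k * (k + 1) = 3 * (k * (k + 1)) := by ring
      omega
  obtain ⟨P, Q, hP, hP0, hQ0, hI⟩ := partA R hR hkC e x hx ω w hwR a ha hw hV
  exact partB R hC ν e x ω w a ha hw0 hν1 hν2 hw hV P Q hP hP0 hQ0 hI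

end Pool.Agent.V1138.SP
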