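import Mathlib
import Pool.Agent.TH551.SU.Sui
import Pool.Agent.TH526.ZL.N
import Pool.Agent.V1138.SP.Abs

/-!
# The grading of the field of germs by the rates of growth of exponents
-/

set_option autoImplicit false

namespace Pool.Agent.V1138.SP

open Filter Topology Pool.Agent.TH932.Germs Pool.Agent.TH551.SU

/-- bounded sequences converge along the ultrafilter -/
theorem ulim (f : ℕ → ℝ) (A B : ℝ) (h : ∀ᶠ n in (UU : Filter ℕ), A ≤ f n ∧ f n ≤ B) :
    ∃ x, Tendsto f (UU : Filter ℕ) (𝓝 x) := by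
  have h1 : IsCompact (Set.Icc A B) := isCompact_Icc
  have h2 : ((UU.map f : Ultrafilter ℝ) : Filter ℝ) ≤ 𝓟 (Set.Icc A B) := by
    rw [le_principal_iff, Ultrafilter.coe_map, mem_map]
    exact h
  obtain ⟨x, -, hx⟩ := h1.ultrafilter_le_nhds (UU.map f) h2
  exact ⟨x, hx⟩

section

variable {L : ℕ → ℝ} (hL : Tendsto L atTop atTop) {s : ℕ} (b : Fin s → ℕ)

include hL in
/-- products with small exponents are negligible -/
theorem small (hb : ∀ v, (b v).Prime) (f : ℕ → Fin s → ℤ)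
    (hf : ∀ v, Tendsto (fun n => (f n v : ℝ) / L n) (UU : Filter ℕ) (𝓝 0)) :
    gm (fun n => ∏ v, (b v : ℚ) ^ (f n v)) ∈ KK L hL := by
  have hb0 : ∀ v, (b v : ℚ) ≠ 0 := fun v => by exact_mod_cast (hb v).ne_zero
  have hbpos : ∀ v, (0 : ℝ) < b v := fun v => by exact_mod_cast (hb v).pos
  have hb1 : ∀ v, (1 : ℝ) ≤ b v := fun v => by exact_mod_cast (hb v).one_le
  have hneg : ∀ (g : ℕ → Fin s → ℕ), (∀ n v, (g n v : ℝ) ≤ |(f n v : ℝ)|) →
      Negl L (fun n => ∏ v, (b v : ℤ) ^ (g n v)) := by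
    intro g hg ε hε
    set T : ℝ := ∑ v, Real.log (b v) + 1 with hT
    have hlog : ∀ v, 0 ≤ Real.log (b v) := fun v => Real.log_nonneg (hb1 v)
    have hT0 : 0 < T := by
      have : 0 ≤ ∑ v, Real.log (b v) := Finset.sum_nonneg fun v _ => hlog v
      linarith
    have h1 : ∀ᶠ n in (UU : Filter ℕ), ∀ v, |(f n v : ℝ) / L n| < ε / T := by
      rw [eventually_all]
      intro v
      have h2 := (hf v).abs
      rw [abs_zero] at h2
      exact h2.eventually (gt_mem_nhds (div_pos hε hT0))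
    have h2 : ∀ᶠ n in (UU : Filter ℕ), 0 < L n := ev_of_atTop (hL.eventually_gt_atTop 0)
    filter_upwards [h1, h2] with n h3 h4
    push_cast
    rw [abs_of_nonneg (Finset.prod_nonneg fun v _ => by have := hbpos v; positivity)]
    have h5 : ∏ v, (b v : ℝ) ^ (g n v) = Real.exp (∑ v, (g n v : ℝ) * Real.log (b v)) := by
      rw [Real.exp_sum]
      refine Finset.prod_congr rfl fun v _ => ?_
      rw [mul_comm, Real.exp_mul, Real.exp_log (hbpos v), Real.rpow_natCast]
    rw [h5]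
    apply Real.exp_le_exp.2
    have h6 : ∀ v, (g n v : ℝ) ≤ ε / T * L n := by
      intro v
      refine (hg n v).trans ?_
      have h7 := h3 v
      rw [abs_div, abs_of_pos h4, div_lt_iff₀ h4] at h7
      exact h7.le
    calc ∑ v, (g n v : ℝ) * Real.log (b v) ≤ ∑ v, (ε / T * L n) * Real.log (b v) :=
          Finset.sum_le_sum fun v _ => mul_le_mul_of_nonneg_right (h6 v) (hlog v)
      _ = (ε / T * L n) * ∑ v, Real.log (b v) := by rw [Finset.mul_sum]
      _ ≤ (ε / T * L n) * T := by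
          refine mul_le_mul_of_nonneg_left (by linarith) ?_
          positivity
      _ = ε * L n := by field_simp
  refine ⟨fun n => ∏ v, (b v : ℤ) ^ (f n v).toNat, fun n => ∏ v, (b v : ℤ) ^ (-f n v).toNat,
    hneg _ ?_, hneg _ ?_, ?_, ?_⟩
  · intro n v
    have h1 : (((f n v).toNat : ℤ)) ≤ |f n v| := by
      rw [Int.toNat_eq_max]
      exact max_le (le_abs_self _) (abs_nonneg _)
    exact_mod_cast h1
  · intro n v
    have h1 : (((-f n v).toNat : ℤ)) ≤ |f n v| := by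
      rw [Int.toNat_eq_max]
      exact max_le (neg_le_abs _) (abs_nonneg _)
    exact_mod_cast h1
  · refine Eventually.of_forall fun n => ?_
    refine Finset.prod_ne_zero_iff.2 fun v _ => pow_ne_zero _ ?_
    exact_mod_cast (hb v).ne_zero
  · congr 1
    funext n
    push_cast
    rw [← Finset.prod_div_distrib]
    refine Finset.prod_congr rfl fun v _ => ?_
    rw [← zpow_natCast, ← zpow_natCast, ← zpow_sub₀ (hb0 v)]
    congr 1
    rw [Int.toNat_sub_toNat_neg]

include hL in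
/-- the exponents of negligible products are small -/
theorem small_conv (hb : ∀ v, (b v).Prime) (hbi : Function.Injective b) (f : ℕ → Fin s → ℤ)
    (h : gm (fun n => ∏ v, (b v : ℚ) ^ (f n v)) ∈ KK L hL) (v : Fin s) :
    Tendsto (fun n => (f n v : ℝ) / L n) (UU : Filter ℕ) (𝓝 0) := by
  classical
  have hfact : ∀ w, Fact (b w).Prime := fun w => ⟨hb w⟩
  have hb0 : ∀ v, (b v : ℚ) ≠ 0 := fun v => by exact_mod_cast (hb v).ne_zero
  have hval : ∀ n, padicValRat (b v) (∏ w, (b w : ℚ) ^ (f n w)) = f n v := by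
    intro n
    have h1 : ∀ A : Finset (Fin s), padicValRat (b v) (∏ w ∈ A, (b w : ℚ) ^ (f n w)) =
        if v ∈ A then f n v else 0 := by
      intro A
      induction A using Finset.induction_on with
      | empty => simp
      | insert w A hw ih =>
        rw [Finset.prod_insert hw, padicValRat.mul (zpow_ne_zero _ (hb0 w))
          (Finset.prod_ne_zero_iff.2 fun u _ => zpow_ne_zero _ (hb0 u)), ih,
          padicValRat.zpow]
        by_cases hvw : v = w
        · subst hvw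
          rw [if_neg hw, if_pos (Finset.mem_insert_self _ _), padicValRat.of_nat,
            padicValNat_self]
          simp
        · have h2 : padicValRat (b v) ((b w : ℕ) : ℚ) = 0 := by
            rw [padicValRat.of_nat, padicValNat_primes (fun h => hvw (hbi h))]
            rfl
          rw [h2, mul_zero, zero_add]
          simp only [Finset.mem_insert, hvw, false_or]
    rw [h1]
    simp
  rw [mem_KK_iff] at h
  obtain ⟨h1, h2⟩ := h
  rw [Metric.tendsto_nhds]
  intro ε hε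
  have hlog2 : 0 < Real.log 2 := Real.log_pos (by norm_num)
  have h3 := h1 (ε / 2 * Real.log 2) (by positivity)
  have h4 := h2 (ε / 2 * Real.log 2) (by positivity)
  have h5 : ∀ᶠ n in (UU : Filter ℕ), 0 < L n := ev_of_atTop (hL.eventually_gt_atTop 0)
  filter_upwards [h3, h4, h5] with n h3 h4 h5
  rw [dist_zero_right, Real.norm_eq_abs, abs_div, abs_of_pos h5, div_lt_iff₀ h5]
  set q : ℚ := ∏ w, (b w : ℚ) ^ (f n w) with hq
  have hq0 : q ≠ 0 := Finset.prod_ne_zero_iff.2 fun u _ => zpow_ne_zero _ (hb0 u)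
  have hle : ∀ m : ℕ, m ≠ 0 → ((m : ℤ) : ℝ) ≤ Real.exp (ε / 2 * Real.log 2 * L n) →
      (padicValNat (b v) m : ℝ) ≤ ε / 2 * L n := by
    intro m hm hme
    have h6 : (b v) ^ (padicValNat (b v) m) ≤ m :=
      Nat.le_of_dvd (Nat.pos_of_ne_zero hm) pow_padicValNat_dvd
    have h7 : 2 ^ (padicValNat (b v) m) ≤ m :=
      (Nat.pow_le_pow_left (hb v).two_le _).trans h6
    have h8 : ((2 : ℝ)) ^ (padicValNat (b v) m) ≤ Real.exp (ε / 2 * Real.log 2 * L n) := by
      refine le_trans ?_ hme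
      exact_mod_cast h7
    have h9 := Real.log_le_log (by positivity) h8
    rw [Real.log_pow, Real.log_exp] at h9
    have h10 : (padicValNat (b v) m : ℝ) * Real.log 2 ≤ (ε / 2 * L n) * Real.log 2 := by
      linarith
    exact le_of_mul_le_mul_right h10 hlog2
  have h6 : (padicValNat (b v) q.num.natAbs : ℝ) ≤ ε / 2 * L n := by
    apply hle _ (Int.natAbs_ne_zero.2 (Rat.num_ne_zero.2 hq0))
    rw [Int.natCast_natAbs, Int.cast_abs]
    exact h3
  have h7 : (padicValNat (b v) q.den : ℝ) ≤ ε / 2 * L n := by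
    apply hle _ q.den_ne_zero
    refine le_trans (le_abs_self _) h4
  have h8 : (f n v : ℝ) = (padicValNat (b v) q.num.natAbs : ℝ) - (padicValNat (b v) q.den : ℝ) := by
    have h9 := hval n
    rw [← hq, padicValRat_def, padicValInt] at h9
    rw [← h9, Int.cast_sub, Int.cast_natCast, Int.cast_natCast]
  have h9 : (0 : ℝ) ≤ (padicValNat (b v) q.num.natAbs : ℝ) := Nat.cast_nonneg _
  have h10 : (0 : ℝ) ≤ (padicValNat (b v) q.den : ℝ) := Nat.cast_nonneg _
  rw [h8, abs_lt]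
  constructor
  · nlinarith
  · nlinarith

/-- the unit with exponents growing at the given rates -/
noncomputable def Ud (L : ℕ → ℝ) {s : ℕ} (b : Fin s → ℕ) (d : Lex (Fin s → ℝ)) : GG :=
  gm (fun n => ∏ v, (b v : ℚ) ^ ⌊(ofLex d) v * L n⌋)

theorem Ud_ne {L : ℕ → ℝ} {s : ℕ} {b : Fin s → ℕ} (hb : ∀ v, (b v).Prime)
    (d : Lex (Fin s → ℝ)) : Ud L b d ≠ 0 :=
  gm_ne_zero.2 (Eventually.of_forall fun n => Finset.prod_ne_zero_iff.2 fun v _ =>
    zpow_ne_zero _ (by exact_mod_cast (hb v).ne_zero))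

theorem floor_tendsto {L : ℕ → ℝ} (hL : Tendsto L atTop atTop) (x : ℝ) :
    Tendsto (fun n => ((⌊x * L n⌋ : ℤ) : ℝ) / L n) (UU : Filter ℕ) (𝓝 x) := by
  rw [Metric.tendsto_nhds]
  intro ε hε
  apply ev_of_atTop
  filter_upwards [hL.eventually_gt_atTop 0, hL.eventually_gt_atTop (1 / ε)] with n h1 h2
  rw [Real.dist_eq]
  have h3 : ((⌊x * L n⌋ : ℤ) : ℝ) / L n - x = ((⌊x * L n⌋ : ℝ) - x * L n) / L n := by
    field_simp
  rw [h3, abs_div, abs_of_pos h1, div_lt_iff₀ h1]
  have h4 : 1 < ε * L n := by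
    rw [div_lt_iff₀ hε] at h2
    linarith
  have h5 := Int.floor_le (x * L n)
  have h6 := Int.lt_floor_add_one (x * L n)
  rw [abs_lt]
  constructor <;> linarith

/-- the homogeneous elements -/
noncomputable def Rd {L : ℕ → ℝ} (hL : Tendsto L atTop atTop) {s : ℕ} (b : Fin s → ℕ)
    (d : Lex (Fin s → ℝ)) : AddSubgroup GG where
  carrier := {g | ∃ c ∈ KK L hL, g = c * Ud L b d}
  add_mem' := by
    rintro x y ⟨c, hc, rfl⟩ ⟨c', hc', rfl⟩
    exact ⟨c + c', (KK L hL).add_mem hc hc', by ring⟩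
  zero_mem' := ⟨0, (KK L hL).zero_mem, by ring⟩
  neg_mem' := by
    rintro x ⟨c, hc, rfl⟩
    exact ⟨-c, (KK L hL).neg_mem hc, by ring⟩

theorem mem_Rd {L : ℕ → ℝ} (hL : Tendsto L atTop atTop) {s : ℕ} (b : Fin s → ℕ)
    (hb : ∀ v, (b v).Prime) (d : Fin s → ℝ) (f : ℕ → Fin s → ℤ)
    (hf : ∀ v, Tendsto (fun n => (f n v : ℝ) / L n) (UU : Filter ℕ) (𝓝 (d v))) :
    gm (fun n => ∏ v, (b v : ℚ) ^ (f n v)) ∈ Rd hL b (toLex d) := by
  have hb0 : ∀ v, (b v : ℚ) ≠ 0 := fun v => by exact_mod_cast (hb v).ne_zero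
  refine ⟨gm (fun n => ∏ v, (b v : ℚ) ^ (f n v - ⌊d v * L n⌋)), small hL b hb _ ?_, ?_⟩
  · intro v
    have h1 := (hf v).sub (floor_tendsto hL (d v))
    rw [sub_self] at h1
    refine h1.congr fun n => ?_
    push_cast
    rw [sub_div]
  · unfold Ud
    rw [gm_mul]
    congr 1
    funext n
    rw [← Finset.prod_mul_distrib]
    refine Finset.prod_congr rfl fun v _ => ?_
    rw [← zpow_add₀ (hb0 v)]
    congr 1
    rw [ofLex_toLex]
    ring

theorem smul_mem_Rd {L : ℕ → ℝ} (hL : Tendsto L atTop atTop) {s : ℕ} (b : Fin s → ℕ)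
    (d : Lex (Fin s → ℝ)) (c x : GG) (hc : c ∈ KK L hL) (hx : x ∈ Rd hL b d) :
    c * x ∈ Rd hL b d := by
  obtain ⟨c', hc', rfl⟩ := hx
  exact ⟨c * c', (KK L hL).mul_mem hc hc', by ring⟩

theorem div_mem_KK {L : ℕ → ℝ} (hL : Tendsto L atTop atTop) {s : ℕ} (b : Fin s → ℕ)
    (hb : ∀ v, (b v).Prime) (d : Lex (Fin s → ℝ)) (x y : GG) (hx : x ∈ Rd hL b d)
    (hy : y ∈ Rd hL b d) : x / y ∈ KK L hL := by
  obtain ⟨c, hc, rfl⟩ := hx
  obtain ⟨c', hc', rfl⟩ := hy
  rw [mul_div_mul_right _ _ (Ud_ne hb d)]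
  exact (KK L hL).div_mem hc hc'

theorem Ud_div {L : ℕ → ℝ} (hL : Tendsto L atTop atTop) {s : ℕ} (b : Fin s → ℕ)
    (hb : ∀ v, (b v).Prime) (hbi : Function.Injective b) (d e : Lex (Fin s → ℝ))
    (h : Ud L b d / Ud L b e ∈ KK L hL) : d = e := by
  have hb0 : ∀ v, (b v : ℚ) ≠ 0 := fun v => by exact_mod_cast (hb v).ne_zero
  unfold Ud at h
  rw [gm_div] at h
  have h1 : (fun n => (∏ v, (b v : ℚ) ^ ⌊(ofLex d) v * L n⌋) / ∏ v, (b v : ℚ) ^ ⌊(ofLex e) v * L n⌋)
      = fun n => ∏ v, (b v : ℚ) ^ (⌊(ofLex d) v * L n⌋ - ⌊(ofLex e) v * L n⌋) := by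
    funext n
    rw [← Finset.prod_div_distrib]
    refine Finset.prod_congr rfl fun v _ => ?_
    rw [zpow_sub₀ (hb0 v)]
  rw [h1] at h
  have h2 := small_conv hL b hb hbi (fun n v => ⌊(ofLex d) v * L n⌋ - ⌊(ofLex e) v * L n⌋) h
  apply ofLex.injective
  funext v
  have h3 := h2 v
  have h4 := (floor_tendsto hL ((ofLex d) v)).sub (floor_tendsto hL ((ofLex e) v))
  have h5 : Tendsto (fun n => (((⌊(ofLex d) v * L n⌋ - ⌊(ofLex e) v * L n⌋ : ℤ)) : ℝ) / L n)
      (UU : Filter ℕ) (𝓝 ((ofLex d) v - (ofLex e) v)) := by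
    refine h4.congr fun n => ?_
    push_cast
    rw [sub_div]
  have h6 := tendsto_nhds_unique h3 h5
  linarith

theorem GSU_Ud (L : ℕ → ℝ) {s : ℕ} (b : Fin s → ℕ) (d : Lex (Fin s → ℝ)) :
    GSU b (Ud L b d) :=
  ⟨_, rfl, fun n => ⟨1, fun v => ⌊(ofLex d) v * L n⌋, Or.inl rfl, by simp⟩⟩

theorem grad {L : ℕ → ℝ} (hL : Tendsto L atTop atTop) {s : ℕ} (b : Fin s → ℕ)
    (hb : ∀ v, (b v).Prime) (hbi : Function.Injective b) : Grad (Rd hL b) where
  one_mem := by
    refine ⟨1, (KK L hL).one_mem, ?_⟩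
    rw [one_mul]
    unfold Ud
    rw [← gm_one]
    congr 1
    funext n
    rw [Finset.prod_eq_one]
    intro v _
    have h0 : (ofLex (0 : Lex (Fin s → ℝ))) v = 0 := rfl
    rw [h0, zero_mul, Int.floor_zero, zpow_zero]
  mul_mem := by
    rintro d e x y ⟨c, hc, rfl⟩ ⟨c', hc', rfl⟩
    have h1 : Ud L b d * Ud L b e ∈ Rd hL b (d + e) := by
      unfold Ud
      rw [gm_mul]
      have hb0 : ∀ v, (b v : ℚ) ≠ 0 := fun v => by exact_mod_cast (hb v).ne_zero
      have h2 : (fun n => (∏ v, (b v : ℚ) ^ ⌊(ofLex d) v * L n⌋) *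
          ∏ v, (b v : ℚ) ^ ⌊(ofLex e) v * L n⌋)
          = fun n => ∏ v, (b v : ℚ) ^ (⌊(ofLex d) v * L n⌋ + ⌊(ofLex e) v * L n⌋) := by
        funext n
        rw [← Finset.prod_mul_distrib]
        refine Finset.prod_congr rfl fun v _ => ?_
        rw [zpow_add₀ (hb0 v)]
      rw [h2]
      refine mem_Rd hL b hb (fun v => (ofLex d) v + (ofLex e) v)
        (fun n v => ⌊(ofLex d) v * L n⌋ + ⌊(ofLex e) v * L n⌋) ?_
      intro v
      have h4 := (floor_tendsto hL ((ofLex d) v)).add (floor_tendsto hL ((ofLex e) v))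
      refine h4.congr fun n => ?_
      push_cast
      rw [add_div]
    have h2 : c * Ud L b d * (c' * Ud L b e) = (c * c') * (Ud L b d * Ud L b e) := by ring
    rw [h2]
    exact smul_mem_Rd hL b _ _ _ ((KK L hL).mul_mem hc hc') h1
  indep := by
    classical
    intro f hf hsum
    choose c hc hfc using hf
    let E := f.support.equivFin
    have h1 := SUI.sui s b hb hbi L hL f.support.card (fun i => Ud L b (E.symm i : Lex (Fin s → ℝ)))
      (fun i => GSU_Ud L b _) (fun i j hij h => hij (E.symm.injective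
        (Subtype.ext (Ud_div hL b hb hbi _ _ h))))
      (fun i => ⟨c (E.symm i : Lex (Fin s → ℝ)), hc _⟩) ?_
    · by_contra hne
      obtain ⟨d, hd⟩ := Finsupp.support_nonempty_iff.2 hne
      have h2 := h1 (E ⟨d, hd⟩)
      have h3 : c d = 0 := by
        have h4 := congrArg Subtype.val h2
        simpa using h4
      have h4 := hfc d
      rw [h3, zero_mul] at h4
      exact (Finsupp.mem_support_iff.1 hd) h4
    · have h2 : ∑ i, (c (E.symm i : Lex (Fin s → ℝ))) * Ud L b (E.symm i : Lex (Fin s → ℝ)) =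
          ∑ d : f.support, f d := by
        rw [← Equiv.sum_comp E.symm (fun d : f.support => f d)]
        exact Finset.sum_congr rfl fun i _ => (hfc _).symm
      show ∑ i, (c (E.symm i : Lex (Fin s → ℝ))) * Ud L b (E.symm i : Lex (Fin s → ℝ)) = 0
      rw [h2, Finset.sum_coe_sort f.support (fun d => f d)]
      exact hsum

end

end Pool.Agent.V1138.SP
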