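import Mathlib
import Pool.Agent.V1138.SP.Grade
import Pool.Agent.V1138.SP.Desc

/-!
# Factorizations over a finite set of primes, germs of integers
-/

set_option autoImplicit false

namespace Pool.Agent.V1138.SP

open Filter Topology Pool.Agent.TH932.Germs Pool.Agent.TH551.SU

/-- the exponent of `b v` -/
def ex {s : ℕ} (b : Fin s → ℕ) (m : ℕ) (v : Fin s) : ℕ := m.factorization (b v)

theorem prod_ex {s : ℕ} (b : Fin s → ℕ) (hbi : Function.Injective b) (m : ℕ)
    (hm : m ≠ 0) (h : ∀ p : ℕ, p.Prime → p ∣ m → ∃ v, b v = p) :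
    (m : ℚ) = ∏ v, (b v : ℚ) ^ (ex b m v : ℤ) := by
  classical
  have h1 : m = ∏ v, (b v) ^ (ex b m v) := by
    conv_lhs => rw [← Nat.prod_factorization_pow_eq_self hm]
    rw [Finsupp.prod, Nat.support_factorization]
    have h2 : m.primeFactors ⊆ Finset.univ.image b := by
      intro p hp
      obtain ⟨v, hv⟩ := h p (Nat.prime_of_mem_primeFactors hp) (Nat.dvd_of_mem_primeFactors hp)
      exact Finset.mem_image.2 ⟨v, Finset.mem_univ _, hv⟩
    rw [Finset.prod_subset h2, Finset.prod_image fun v _ w _ h => hbi h]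
    · rfl
    · intro p _ hp
      rw [Finsupp.notMem_support_iff.1 (by rw [Nat.support_factorization]; exact hp), pow_zero]
  have h2 : (m : ℚ) = ((∏ v, (b v) ^ (ex b m v) : ℕ) : ℚ) := by rw [← h1]
  rw [h2]
  push_cast
  exact Finset.prod_congr rfl fun v _ => (zpow_natCast _ _).symm

theorem ex_le {s : ℕ} (b : Fin s → ℕ) (hb : ∀ v, (b v).Prime) (m : ℕ) (hm : m ≠ 0) (v : Fin s) :
    (ex b m v : ℝ) * Real.log 2 ≤ Real.log m := by
  have h1 : (b v) ^ (ex b m v) ≤ m :=
    Nat.le_of_dvd (Nat.pos_of_ne_zero hm) (Nat.ordProj_dvd m (b v))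
  have h2 : 2 ^ (ex b m v) ≤ m := (Nat.pow_le_pow_left (hb v).two_le _).trans h1
  have h3 : (2 : ℝ) ^ (ex b m v) ≤ m := by exact_mod_cast h2
  have h4 := Real.log_le_log (by positivity) h3
  rwa [Real.log_pow] at h4

theorem gm_sum {ι : Type*} (A : Finset ι) (f : ι → ℕ → ℚ) :
    ∑ i ∈ A, gm (f i) = gm (fun n => ∑ i ∈ A, f i n) := by
  classical
  induction A using Finset.induction_on with
  | empty => simp only [Finset.sum_empty]; rw [gm_zero]
  | insert i A hi ih =>
    rw [Finset.sum_insert hi, ih, gm_add]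
    congr 1
    funext n
    rw [Finset.sum_insert hi]

theorem sign_mem {L : ℕ → ℝ} (hL : Tendsto L atTop atTop) (z : ℕ → ℤ) :
    gm (fun n => ((z n).sign : ℚ)) ∈ KK L hL := by
  refine ⟨fun n => (z n).sign, fun _ => 1, ?_, Negl.one hL, by simp, ?_⟩
  · intro ε hε
    filter_upwards [L_nonneg hL] with n hn
    have h1 : |((z n).sign : ℝ)| ≤ 1 := by
      rcases lt_trichotomy (z n) 0 with h | h | h
      · rw [Int.sign_eq_neg_one_of_neg h]; simp
      · rw [h]; simp
      · rw [Int.sign_eq_one_of_pos h]; simp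
    have h2 : (1 : ℝ) ≤ Real.exp (ε * L n) := Real.one_le_exp (by positivity)
    linarith
  · congr 1
    funext n
    simp

/-- a vector of integers without a common prime factor is bounded by its ratios -/
theorem coprime_bound {k : ℕ} (a : Fin (k + 1) → ℤ) (ha : ∀ i, a i ≠ 0)
    (hp : ∀ p : ℕ, p.Prime → ∃ i, ¬ (p : ℤ) ∣ a i) :
    |a 0| ≤ ∏ i, (((a i : ℚ) / a 0).den : ℤ) := by
  classical
  set V : ℤ := ∏ i, (((a i : ℚ) / a 0).den : ℤ) with hV
  have hVpos : 0 < V := Finset.prod_pos fun i _ => by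
    exact_mod_cast ((a i : ℚ) / a 0).den_pos
  have h1 : ∀ i, a 0 ∣ V * a i := by
    intro i
    have h2 : (((a i : ℚ) / a 0).den : ℤ) ∣ V := Finset.dvd_prod_of_mem _ (Finset.mem_univ i)
    obtain ⟨W, hW⟩ := h2
    refine ⟨W * ((a i : ℚ) / a 0).num, ?_⟩
    have h3 : ((a i : ℚ) / a 0) * ((a i : ℚ) / a 0).den = ((a i : ℚ) / a 0).num :=
      Rat.mul_den_eq_num _
    have h4 : (a 0 : ℚ) ≠ 0 := by exact_mod_cast ha 0
    have h5 : (a i : ℚ) * ((a i : ℚ) / a 0).den = a 0 * ((a i : ℚ) / a 0).num := by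
      rw [← h3]
      field_simp
    have h6 : (a i : ℤ) * (((a i : ℚ) / a 0).den : ℤ) = a 0 * ((a i : ℚ) / a 0).num := by
      exact_mod_cast h5
    rw [hW]
    calc (((a i : ℚ) / a 0).den : ℤ) * W * a i = (a i * (((a i : ℚ) / a 0).den : ℤ)) * W := by ring
      _ = a 0 * (W * ((a i : ℚ) / a 0).num) := by rw [h6]; ring
  have h2 : a 0 ∣ Finset.univ.gcd (fun i => V * a i) := Finset.dvd_gcd fun i _ => h1 i
  rw [Finset.gcd_mul_left] at h2
  have h3 : (Finset.univ.gcd a).natAbs = 1 := by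
    by_contra hne
    obtain ⟨p, hpp, hpd⟩ := Nat.exists_prime_and_dvd hne
    obtain ⟨i, hi⟩ := hp p hpp
    exact hi ((Int.natCast_dvd.2 hpd).trans (Finset.gcd_dvd (Finset.mem_univ i)))
  have h4 : IsUnit (Finset.univ.gcd a) := Int.isUnit_iff_natAbs_eq.2 h3
  have h5 : a 0 ∣ V := by
    have h6 := (h4.dvd_mul_right).1 h2
    exact h6.trans (normalize_associated V).dvd
  have h6 : |a 0| ∣ V := (abs_dvd _ _).2 h5
  exact Int.le_of_dvd hVpos h6

end Pool.Agent.V1138.SP
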