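import Mathlib
import Pool.Agent.V1138.SP.Fac

/-!
# Integral polynomials with few terms whose values at many numbers are smooth
-/

set_option autoImplicit false

namespace Pool.Agent.V1138.SP

open Filter Topology Pool.Agent.TH932.Germs Pool.Agent.TH551.SU

/-- the homogenized value at `α` of the polynomial with coefficients `a` and exponents `N` -/
def val {k : ℕ} (N : Fin (k + 1) → ℕ) (a : Fin (k + 1) → ℤ) (α : ℚ) : ℤ :=
  ∑ i, a i * (α.num ^ (N i) * (α.den : ℤ) ^ (N (Fin.last k) - N i))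

theorem val_abs {k : ℕ} (N : Fin (k + 1) → ℕ) (hN : StrictMono N) (a : Fin (k + 1) → ℤ) (α : ℚ)
    (A H : ℕ) (hA : ∀ i, (a i).natAbs ≤ A) (hn : α.num.natAbs ≤ H) (hd : α.den ≤ H) :
    (val N a α).natAbs ≤ (k + 1) * (A * H ^ (N (Fin.last k))) := by
  have h1 : ∀ i, (a i * (α.num ^ (N i) * (α.den : ℤ) ^ (N (Fin.last k) - N i))).natAbs ≤
      A * H ^ (N (Fin.last k)) := by
    intro i
    rw [Int.natAbs_mul, Int.natAbs_mul, Int.natAbs_pow, Int.natAbs_pow, Int.natAbs_natCast]
    have h2 : N i ≤ N (Fin.last k) := hN.monotone (Fin.le_last i)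
    have h3 : H ^ (N (Fin.last k)) = H ^ (N i) * H ^ (N (Fin.last k) - N i) := by
      rw [← pow_add]
      congr 1
      omega
    rw [h3]
    exact Nat.mul_le_mul (hA i) (Nat.mul_le_mul (Nat.pow_le_pow_left hn _)
      (Nat.pow_le_pow_left hd _))
  unfold val
  refine (Int.natAbs_sum_le _ _).trans ?_
  refine (Finset.sum_le_card_nsmul _ _ _ fun i _ => h1 i).trans ?_
  simp

/-- the sequence version -/
theorem seq (k D0 : ℕ) (α : Fin (3 * k * (k + 1) + 1) → ℚ) (hα : ∀ l, 0 < α l)
    (hinj : Function.Injective α) (N : ℕ → Fin (k + 1) → ℕ) (a : ℕ → Fin (k + 1) → ℤ)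
    (hN : ∀ n, StrictMono (N n)) (hN0 : ∀ n, N n 0 = 0) (ha : ∀ n i, a n i ≠ 0)
    (hp : ∀ n, ∀ p : ℕ, p.Prime → ∃ i, ¬ (p : ℤ) ∣ a n i)
    (hsm : ∀ n l, ∀ p : ℕ, p.Prime → D0 < p → ¬ (p : ℤ) ∣ val (N n) (a n) (α l))
    (hbig : ∀ n, N n (Fin.last k) ≤ n → ∃ i, n < (a n i).natAbs) : False := by
  classical
  -- the maximum of the coefficients
  set A : ℕ → ℕ := fun n => Finset.univ.sup fun i => (a n i).natAbs with hAd
  have hAi : ∀ n i, (a n i).natAbs ≤ A n := fun n i =>
    Finset.le_sup (f := fun i => (a n i).natAbs) (Finset.mem_univ i)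
  have hA1 : ∀ n, 1 ≤ A n := fun n =>
    (Nat.one_le_iff_ne_zero.2 (Int.natAbs_ne_zero.2 (ha n 0))).trans (hAi n 0)
  set L : ℕ → ℝ := fun n => Real.log ((A n : ℝ) + 1) + N n (Fin.last k) with hLd
  have hlogA : ∀ n, 0 ≤ Real.log ((A n : ℝ) + 1) := fun n =>
    Real.log_nonneg (by have : (0 : ℝ) ≤ A n := Nat.cast_nonneg _; linarith)
  have hL : Tendsto L atTop atTop := by
    have h1 : Tendsto (fun n : ℕ => Real.log ((n : ℝ) + 1)) atTop atTop :=
      Real.tendsto_log_atTop.comp (tendsto_atTop_add_const_right _ _ tendsto_natCast_atTop_atTop)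
    refine tendsto_atTop_mono (fun n => ?_) h1
    show Real.log ((n : ℝ) + 1) ≤ Real.log ((A n : ℝ) + 1) + N n (Fin.last k)
    have hn0 : (0 : ℝ) ≤ n := Nat.cast_nonneg _
    by_cases h : N n (Fin.last k) ≤ n
    · obtain ⟨i, hi⟩ := hbig n h
      have h2 : n ≤ A n := (hi.le).trans (hAi n i)
      have h3 : Real.log ((n : ℝ) + 1) ≤ Real.log ((A n : ℝ) + 1) :=
        Real.log_le_log (by linarith) (by have : (n : ℝ) ≤ A n := by exact_mod_cast h2
                                          linarith)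
      have h4 : (0 : ℝ) ≤ N n (Fin.last k) := Nat.cast_nonneg _
      linarith
    · push Not at h
      have h2 : Real.log ((n : ℝ) + 1) ≤ n := by
        have := Real.log_le_sub_one_of_pos (show (0 : ℝ) < (n : ℝ) + 1 by linarith)
        linarith
      have h3 : (n : ℝ) ≤ N n (Fin.last k) := by exact_mod_cast h.le
      linarith [hlogA n]
  have hLN : ∀ n, (N n (Fin.last k) : ℝ) ≤ L n := fun n => by
    show (N n (Fin.last k) : ℝ) ≤ Real.log ((A n : ℝ) + 1) + N n (Fin.last k)
    linarith [hlogA n]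
  have hLpos : ∀ᶠ n in (UU : Filter ℕ), 1 ≤ L n := ev_of_atTop (hL.eventually_ge_atTop 1)
  -- the primes
  set H : ℕ := 1 + ∑ l, ((α l).num.natAbs + (α l).den) with hHd
  have hHl : ∀ l, (α l).num.natAbs + (α l).den ≤ H := by
    intro l
    have := Finset.single_le_sum (f := fun l => (α l).num.natAbs + (α l).den)
      (fun _ _ => Nat.zero_le _) (Finset.mem_univ l)
    omega
  set D' : ℕ := D0 + H with hD'
  let Pr : Finset ℕ := (Finset.range (D' + 1)).filter Nat.Prime
  let b : Fin Pr.card → ℕ := fun v => (Pr.equivFin.symm v : ℕ)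
  have hb : ∀ v, (b v).Prime := fun v => (Finset.mem_filter.1 (Pr.equivFin.symm v).2).2
  have hbi : Function.Injective b := fun v w h => Pr.equivFin.symm.injective (Subtype.ext h)
  have hbs : ∀ p : ℕ, p.Prime → p ≤ D' → ∃ v, b v = p := by
    intro p hp hpD
    refine ⟨Pr.equivFin ⟨p, Finset.mem_filter.2 ⟨Finset.mem_range.2 (by omega), hp⟩⟩, ?_⟩
    show ((Pr.equivFin.symm _ : Pr) : ℕ) = p
    rw [Equiv.symm_apply_apply]
  have hb0 : ∀ v, (b v : ℚ) ≠ 0 := fun v => by exact_mod_cast (hb v).ne_zero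
  -- the factorizations of the numerators and denominators
  have hnum : ∀ l, 0 < (α l).num := fun l => Rat.num_pos.2 (hα l)
  have hnum0 : ∀ l, (α l).num.natAbs ≠ 0 := fun l => Int.natAbs_ne_zero.2 (hnum l).ne'
  have hnumf : ∀ l, ((α l).num : ℚ) = ∏ v, (b v : ℚ) ^ (ex b (α l).num.natAbs v : ℤ) := by
    intro l
    rw [← prod_ex b hbi _ (hnum0 l)]
    · have h1 : (((α l).num.natAbs : ℕ) : ℤ) = (α l).num := by
        rw [Int.natCast_natAbs, abs_of_pos (hnum l)]
      rw [← Int.cast_natCast (R := ℚ) (α l).num.natAbs, h1]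
    · intro p hpp hpd
      apply hbs p hpp
      have h1 := Nat.le_of_dvd (Nat.pos_of_ne_zero (hnum0 l)) hpd
      have h2 := hHl l
      omega
  have hdenf : ∀ l, ((α l).den : ℚ) = ∏ v, (b v : ℚ) ^ (ex b (α l).den v : ℤ) := by
    intro l
    rw [← prod_ex b hbi _ (α l).den_ne_zero]
    intro p hpp hpd
    apply hbs p hpp
    have h1 := Nat.le_of_dvd (α l).den_pos hpd
    have h2 := hHl l
    omega
  -- rates of the exponents
  have hνex : ∀ i, ∃ y, Tendsto (fun n => (N n i : ℝ) / L n) (UU : Filter ℕ) (𝓝 y) := by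
    intro i
    apply ulim _ 0 1
    filter_upwards [hLpos] with n hn
    have hn0 : (0 : ℝ) < L n := by linarith
    have h1 : (N n i : ℝ) ≤ N n (Fin.last k) := by
      exact_mod_cast (hN n).monotone (Fin.le_last i)
    refine ⟨by positivity, ?_⟩
    rw [div_le_one hn0]
    exact h1.trans (hLN n)
  choose ν hν using hνex
  -- the monomials
  set x : Fin (3 * k * (k + 1) + 1) → Fin (k + 1) → GG := fun l i =>
    gm (fun n => ((α l).num : ℚ) ^ (N n i) * ((α l).den : ℚ) ^ (N n (Fin.last k) - N n i)) with hxd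
  set ee : Fin (3 * k * (k + 1) + 1) → Fin (k + 1) → Lex (Fin Pr.card → ℝ) := fun l i =>
    toLex (fun v => ν i * ex b (α l).num.natAbs v + (ν (Fin.last k) - ν i) * ex b (α l).den v)
    with heed
  have hx : ∀ l i, x l i ∈ Rd hL b (ee l i) := by
    intro l i
    have h1 : x l i = gm (fun n => ∏ v, (b v : ℚ) ^ ((N n i : ℤ) * ex b (α l).num.natAbs v +
        ((N n (Fin.last k) : ℤ) - N n i) * ex b (α l).den v)) := by
      rw [hxd]
      simp only
      congr 1
      funext n
      have h2 : N n i ≤ N n (Fin.last k) := (hN n).monotone (Fin.le_last i)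
      rw [hnumf, hdenf, ← Finset.prod_pow, ← Finset.prod_pow, ← Finset.prod_mul_distrib]
      refine Finset.prod_congr rfl fun v _ => ?_
      rw [← zpow_natCast, ← zpow_natCast, ← zpow_mul, ← zpow_mul, ← zpow_add₀ (hb0 v)]
      congr 1
      rw [Nat.cast_sub h2]
      ring
    rw [h1]
    refine mem_Rd hL b hb _ _ fun v => ?_
    have h2 := ((hν i).mul_const (ex b (α l).num.natAbs v : ℝ)).add
      (((hν (Fin.last k)).sub (hν i)).mul_const (ex b (α l).den v : ℝ))
    refine h2.congr fun n => ?_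
    push_cast
    ring
  -- the values
  set z : Fin (3 * k * (k + 1) + 1) → ℕ → ℤ := fun l n => val (N n) (a n) (α l) with hzd
  have hz0 : ∀ l n, z l n ≠ 0 := by
    intro l n h
    obtain ⟨p, hp1, hp2⟩ := Nat.exists_infinite_primes (D0 + 1)
    apply hsm n l p hp2 (by omega)
    have h1 : val (N n) (a n) (α l) = 0 := h
    rw [h1]
    exact dvd_zero _
  have hznat : ∀ l n, ((z l n).natAbs : ℚ) = ∏ v, (b v : ℚ) ^ (ex b (z l n).natAbs v : ℤ) := by
    intro l n
    apply prod_ex b hbi _ (Int.natAbs_ne_zero.2 (hz0 l n))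
    intro p hpp hpd
    apply hbs p hpp
    by_contra hlt
    push Not at hlt
    exact hsm n l p hpp (by omega) (Int.natCast_dvd.2 hpd)
  have hlog2 : 0 < Real.log 2 := Real.log_pos (by norm_num)
  have hHpos : (1 : ℝ) ≤ H := by
    have : 1 ≤ H := by omega
    exact_mod_cast this
  have hωex : ∀ l v, ∃ y, Tendsto (fun n => (ex b (z l n).natAbs v : ℝ) / L n)
      (UU : Filter ℕ) (𝓝 y) := by
    intro l v
    apply ulim _ 0 ((Real.log (k + 1) + 1 + Real.log H) / Real.log 2)
    filter_upwards [hLpos] with n hn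
    have hn0 : (0 : ℝ) < L n := by linarith
    refine ⟨by positivity, ?_⟩
    rw [div_le_div_iff₀ hn0 hlog2]
    refine (ex_le b hb _ (Int.natAbs_ne_zero.2 (hz0 l n)) v).trans ?_
    have h1 : (z l n).natAbs ≤ (k + 1) * (A n * H ^ (N n (Fin.last k))) := by
      refine val_abs (N n) (hN n) (a n) (α l) (A n) H (hAi n) ?_ ?_
      · have := hHl l; omega
      · have := hHl l; omega
    have h2 : ((z l n).natAbs : ℝ) ≤ ((k : ℝ) + 1) * ((A n : ℝ) * (H : ℝ) ^ (N n (Fin.last k))) := by
      exact_mod_cast h1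
    have hzpos : (0 : ℝ) < ((z l n).natAbs : ℝ) := by
      exact_mod_cast Nat.pos_of_ne_zero (Int.natAbs_ne_zero.2 (hz0 l n))
    have hApos : (0 : ℝ) < A n := by exact_mod_cast (hA1 n)
    have h3 := Real.log_le_log hzpos h2
    rw [Real.log_mul (by positivity) (by positivity), Real.log_mul (by positivity) (by positivity),
      Real.log_pow] at h3
    have h4 : Real.log (A n) ≤ Real.log ((A n : ℝ) + 1) := Real.log_le_log hApos (by linarith)
    have h5 : 0 ≤ Real.log ((k : ℝ) + 1) :=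
      Real.log_nonneg (by have : (0 : ℝ) ≤ k := Nat.cast_nonneg _; linarith)
    have h6 : 0 ≤ Real.log (H : ℝ) := Real.log_nonneg hHpos
    have h7 : (N n (Fin.last k) : ℝ) * Real.log H ≤ L n * Real.log H :=
      mul_le_mul_of_nonneg_right (hLN n) h6
    have h8 : Real.log ((A n : ℝ) + 1) ≤ L n := by
      show Real.log ((A n : ℝ) + 1) ≤ Real.log ((A n : ℝ) + 1) + N n (Fin.last k)
      have : (0 : ℝ) ≤ N n (Fin.last k) := Nat.cast_nonneg _
      linarith
    have h9 : Real.log ((k : ℝ) + 1) ≤ Real.log ((k : ℝ) + 1) * L n :=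
      le_mul_of_one_le_right h5 hn
    nlinarith
  choose ω hω using hωex
  set w : Fin (3 * k * (k + 1) + 1) → GG := fun l => gm (fun n => (z l n : ℚ)) with hwd
  have hwR : ∀ l, w l ∈ Rd hL b (toLex (ω l)) := by
    intro l
    have h1 : w l = gm (fun n => ((z l n).sign : ℚ)) *
        gm (fun n => ∏ v, (b v : ℚ) ^ (ex b (z l n).natAbs v : ℤ)) := by
      rw [gm_mul, hwd]
      simp only
      congr 1
      funext n
      rw [← hznat]
      have h2 := Int.sign_mul_natAbs (z l n)
      rw [← Int.cast_natCast (R := ℚ) (z l n).natAbs, ← Int.cast_mul, h2]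
    rw [h1]
    refine smul_mem_Rd hL b _ _ _ (sign_mem hL _) (mem_Rd hL b hb _ _ fun v => ?_)
    refine (hω l v).congr fun n => ?_
    rw [Int.cast_natCast]
  have hw0 : ∀ l, w l ≠ 0 := fun l => gm_ne_zero.2 (Eventually.of_forall fun n => by
    exact_mod_cast hz0 l n)
  set a' : Fin (k + 1) → GG := fun i => gm (fun n => (a n i : ℚ)) with ha'd
  have ha'0 : ∀ i, a' i ≠ 0 := fun i => gm_ne_zero.2 (Eventually.of_forall fun n => by
    exact_mod_cast ha n i)
  have hν2 : ∀ i j, ν i ≠ ν j → Function.Injective fun l => ee l i - ee l j := by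
    intro i j hij l l' hll
    apply hinj
    have h1 : ∀ v, (ex b (α l).num.natAbs v : ℤ) - ex b (α l).den v =
        ex b (α l').num.natAbs v - ex b (α l').den v := by
      intro v
      have h2 : (ofLex (ee l i - ee l j)) v = (ofLex (ee l' i - ee l' j)) v := by
        rw [show ee l i - ee l j = ee l' i - ee l' j from hll]
      have h3 : (ν i - ν j) * ((ex b (α l).num.natAbs v : ℝ) - ex b (α l).den v) =
          (ν i - ν j) * ((ex b (α l').num.natAbs v : ℝ) - ex b (α l').den v) := by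
        have h4 : (ofLex (ee l i - ee l j)) v =
            (ν i * ex b (α l).num.natAbs v + (ν (Fin.last k) - ν i) * ex b (α l).den v) -
            (ν j * ex b (α l).num.natAbs v + (ν (Fin.last k) - ν j) * ex b (α l).den v) := rfl
        have h5 : (ofLex (ee l' i - ee l' j)) v =
            (ν i * ex b (α l').num.natAbs v + (ν (Fin.last k) - ν i) * ex b (α l').den v) -
            (ν j * ex b (α l').num.natAbs v + (ν (Fin.last k) - ν j) * ex b (α l').den v) := rfl
        rw [h4, h5] at h2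
        linear_combination h2
      have h4 := mul_left_cancel₀ (sub_ne_zero.2 hij) h3
      exact_mod_cast h4
    have h2 : ∀ l, α l = ∏ v, (b v : ℚ) ^ ((ex b (α l).num.natAbs v : ℤ) - ex b (α l).den v) := by
      intro l
      conv_lhs => rw [← Rat.num_div_den (α l), hnumf, hdenf, ← Finset.prod_div_distrib]
      refine Finset.prod_congr rfl fun v _ => ?_
      rw [zpow_sub₀ (hb0 v)]
    rw [h2 l, h2 l']
    exact Finset.prod_congr rfl fun v _ => by rw [h1]
  have hwsum : ∀ l, ∑ i, a' i * x l i = w l := by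
    intro l
    have h1 : ∀ i, a' i * x l i = gm (fun n => (a n i : ℚ) * (((α l).num : ℚ) ^ (N n i) *
        ((α l).den : ℚ) ^ (N n (Fin.last k) - N n i))) := fun i => gm_mul _ _
    rw [Finset.sum_congr rfl fun i _ => h1 i, gm_sum]
    show gm _ = gm _
    congr 1
    funext n
    show _ = ((val (N n) (a n) (α l) : ℤ) : ℚ)
    unfold val
    push_cast
    rfl
  have hV : ∀ S : Finset (Fin (3 * k * (k + 1) + 1)), k + 1 ≤ S.card → ∀ c : Fin (k + 1) → GG,
      (∀ l ∈ S, ∑ i, c i * x l i = 0) → c = 0 := by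
    intro S hS c hc
    choose γ hγ using fun i => gm_surj (c i)
    have h1 : ∀ᶠ n in (UU : Filter ℕ), ∀ l ∈ S, ∑ i, γ i n * (((α l).num : ℚ) ^ (N n i) *
        ((α l).den : ℚ) ^ (N n (Fin.last k) - N n i)) = 0 := by
      rw [Filter.eventually_all_finset]
      intro l hl
      have h2 := hc l hl
      have h3 : ∀ i, c i * x l i = gm (fun n => γ i n * (((α l).num : ℚ) ^ (N n i) *
        ((α l).den : ℚ) ^ (N n (Fin.last k) - N n i))) := fun i => by rw [← hγ i]; exact gm_mul _ _
      rw [Finset.sum_congr rfl fun i _ => h3 i, gm_sum, ← gm_zero, gm_eq] at h2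
      exact h2
    have h2 : ∀ᶠ n in (UU : Filter ℕ), ∀ i, γ i n = 0 := by
      filter_upwards [h1] with n hn
      have h3 : (fun i => γ i n) = 0 := by
        refine desc (fun i => γ i n) (N n) (hN n).injective (S.image α) ?_ ?_ ?_
        · intro q hq
          obtain ⟨l, -, rfl⟩ := Finset.mem_image.1 hq
          exact hα l
        · rw [Finset.card_image_of_injective _ hinj]
          exact hS
        · intro q hq
          obtain ⟨l, hl, rfl⟩ := Finset.mem_image.1 hq
          have h4 := hn l hl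
          have hd0 : ((α l).den : ℚ) ≠ 0 := by exact_mod_cast (α l).den_ne_zero
          have h5 : ∀ i, γ i n * (((α l).num : ℚ) ^ (N n i) *
              ((α l).den : ℚ) ^ (N n (Fin.last k) - N n i)) =
              ((α l).den : ℚ) ^ (N n (Fin.last k)) * (γ i n * α l ^ (N n i)) := by
            intro i
            have h6 : N n i ≤ N n (Fin.last k) := (hN n).monotone (Fin.le_last i)
            have h7 : ((α l).num : ℚ) = α l * (α l).den := (Rat.mul_den_eq_num _).symm
            have h8 : ((α l).den : ℚ) ^ (N n (Fin.last k)) =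
                ((α l).den : ℚ) ^ (N n i) * ((α l).den : ℚ) ^ (N n (Fin.last k) - N n i) := by
              rw [← pow_add]
              congr 1
              omega
            rw [h8]
            conv_lhs => rw [h7]
            rw [mul_pow]
            ring
          rw [Finset.sum_congr rfl fun i _ => h5 i, ← Finset.mul_sum] at h4
          exact (mul_eq_zero.1 h4).resolve_left (pow_ne_zero _ hd0)
      intro i
      exact congrFun h3 i
    funext i
    rw [← hγ i, Pi.zero_apply, ← gm_zero, gm_eq]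
    filter_upwards [h2] with n hn using hn i
  obtain ⟨hνall, d, q, hq, hqR⟩ := abs (Rd hL b) (grad hL b hb hbi) le_rfl ν ee x hx
    (fun l => toLex (ω l)) w hwR a' ha'0 hw0
    (fun i j hij l => by
      show toLex _ = toLex _
      rw [hij]) hν2 hwsum hV
  -- the exponents are small
  have hν0 : ν 0 = 0 := by
    refine tendsto_nhds_unique (hν 0) ?_
    refine tendsto_const_nhds.congr fun n => ?_
    rw [hN0 n]
    simp
  have hNlast : Tendsto (fun n => (N n (Fin.last k) : ℝ) / L n) (UU : Filter ℕ) (𝓝 0) := by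
    have h1 := hν (Fin.last k)
    rwa [hνall (Fin.last k) 0, hν0] at h1
  -- the ratios are small
  have hratio : ∀ i, gm (fun n => (a n i : ℚ) / a n 0) ∈ KK L hL := by
    intro i
    have h1 := div_mem_KK hL b hb d _ _ (hqR i) (hqR 0)
    rw [mul_div_mul_right _ _ hq] at h1
    exact h1
  set ε : ℝ := 1 / (2 * ((k : ℝ) + 4)) with hεd
  have hk0 : (0 : ℝ) ≤ k := Nat.cast_nonneg _
  have hε : 0 < ε := by positivity
  have hE1 : ∀ᶠ n in (UU : Filter ℕ), ∀ i, |((((a n i : ℚ) / a n 0).num : ℤ) : ℝ)| ≤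
      Real.exp (ε * L n) := by
    rw [eventually_all]
    intro i
    exact ((mem_KK_iff hL _).1 (hratio i)).1 ε hε
  have hE2 : ∀ᶠ n in (UU : Filter ℕ), ∀ i, |(((((a n i : ℚ) / a n 0).den : ℕ) : ℤ) : ℝ)| ≤
      Real.exp (ε * L n) := by
    rw [eventually_all]
    intro i
    exact ((mem_KK_iff hL _).1 (hratio i)).2 ε hε
  have hE3 : ∀ᶠ n in (UU : Filter ℕ), (N n (Fin.last k) : ℝ) / L n < ε :=
    hNlast.eventually (gt_mem_nhds hε)
  have hE4 : ∀ᶠ n in (UU : Filter ℕ), 2 * Real.log 2 < L n :=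
    ev_of_atTop (hL.eventually_gt_atTop _)
  obtain ⟨n, h1, h2, h3, h4, h5⟩ :=
    (hE1.and (hE2.and (hE3.and (hE4.and hLpos)))).exists
  have hn0 : (0 : ℝ) < L n := by linarith
  rw [div_lt_iff₀ hn0] at h3
  set E : ℝ := Real.exp (ε * L n) with hEd
  have hEpos : 0 < E := Real.exp_pos _
  have ha0 : (|a n 0| : ℝ) ≤ E ^ (k + 1) := by
    have h6 := coprime_bound (a n) (ha n) (hp n)
    have h7 : (|a n 0| : ℝ) ≤ ∏ i, (((((a n i : ℚ) / a n 0).den : ℕ) : ℤ) : ℝ) := by
      exact_mod_cast h6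
    refine h7.trans ?_
    have h8 : ∏ i : Fin (k + 1), (((((a n i : ℚ) / a n 0).den : ℕ) : ℤ) : ℝ) ≤
        ∏ _i : Fin (k + 1), E := by
      refine Finset.prod_le_prod (fun i _ => ?_) fun i _ => ?_
      · rw [Int.cast_natCast]
        exact Nat.cast_nonneg _
      · exact (le_abs_self _).trans (h2 i)
    refine h8.trans (le_of_eq ?_)
    simp
  have hai : ∀ i, (|a n i| : ℝ) ≤ E ^ (k + 2) := by
    intro i
    have h6 : (a n i : ℚ) * ((a n i : ℚ) / a n 0).den = a n 0 * ((a n i : ℚ) / a n 0).num := by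
      have h8 : (a n 0 : ℚ) ≠ 0 := by exact_mod_cast ha n 0
      have h9 : ((a n i : ℚ) / a n 0) * ((a n i : ℚ) / a n 0).den = ((a n i : ℚ) / a n 0).num :=
        Rat.mul_den_eq_num _
      rw [← h9]
      field_simp
    have h7 : (a n i : ℝ) * ((a n i : ℚ) / a n 0).den = a n 0 * ((a n i : ℚ) / a n 0).num := by
      exact_mod_cast h6
    have h8 : (1 : ℝ) ≤ (((a n i : ℚ) / a n 0).den : ℝ) := by
      exact_mod_cast ((a n i : ℚ) / a n 0).den_pos
    calc (|a n i| : ℝ) ≤ |(a n i : ℝ)| * (((a n i : ℚ) / a n 0).den : ℝ) :=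
          le_mul_of_one_le_right (abs_nonneg _) h8
      _ = |(a n i : ℝ) * (((a n i : ℚ) / a n 0).den : ℝ)| := by
          rw [abs_mul, abs_of_nonneg (show (0 : ℝ) ≤ (((a n i : ℚ) / a n 0).den : ℝ) by linarith)]
      _ = |(a n 0 : ℝ)| * |((((a n i : ℚ) / a n 0).num : ℤ) : ℝ)| := by rw [h7, abs_mul]
      _ ≤ E ^ (k + 1) * E := mul_le_mul ha0 (h1 i) (abs_nonneg _) (by positivity)
      _ = E ^ (k + 2) := by ring
  have hAE : (A n : ℝ) ≤ E ^ (k + 2) := by
    obtain ⟨i, -, hi⟩ := Finset.exists_mem_eq_sup (Finset.univ : Finset (Fin (k + 1)))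
      Finset.univ_nonempty fun i => (a n i).natAbs
    have h6 : A n = (a n i).natAbs := hi
    rw [h6]
    have h7 := hai i
    rw [← Int.cast_abs] at h7
    rwa [← Int.natCast_natAbs, Int.cast_natCast] at h7
  have hApos : (1 : ℝ) ≤ A n := by exact_mod_cast (hA1 n)
  have h6 : Real.log ((A n : ℝ) + 1) ≤ Real.log 2 + ((k : ℝ) + 2) * (ε * L n) := by
    have h7 : (A n : ℝ) + 1 ≤ 2 * E ^ (k + 2) := by linarith
    have h8 := Real.log_le_log (by linarith) h7
    rw [Real.log_mul (by norm_num) (by positivity), Real.log_pow, hEd, Real.log_exp] at h8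
    push_cast at h8
    linarith
  have h7 : L n = Real.log ((A n : ℝ) + 1) + N n (Fin.last k) := rfl
  have h8 : ((k : ℝ) + 4) * ε = 1 / 2 := by
    rw [hεd]
    field_simp
  have h9 : L n ≤ Real.log 2 + ((k : ℝ) + 3) * ε * L n := by
    rw [h7] at *
    nlinarith
  have h10 : ((k : ℝ) + 3) * ε * L n ≤ 1 / 2 * L n := by
    refine mul_le_mul_of_nonneg_right ?_ hn0.le
    linarith
  linarith

end Pool.Agent.V1138.SP
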