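import Mathlib
import Pool.Agent.V1138.SP.Main
import Pool.Agent.Y152.BD.Nv

/-!
# Algebraic numbers with sparse minimal polynomial and smooth values
-/

set_option autoImplicit false

namespace Pool.Agent.V1138.SP

open Polynomial
open Pool.Agent.Y152.BD (Nv)

/-- the minimal polynomial of `t` over the integers has at most `s + 1` terms -/
def Sparse (s : ℕ) (t : ℂ) : Prop :=
  ∃ F : ℤ[X], Irreducible F ∧ F.support.card ≤ s + 1 ∧ aeval t F = 0

theorem Nv_eq_val {k : ℕ} (F : ℤ[X]) (h : F.support.card = k + 1) (hlast :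
    F.support.orderEmbOfFin h (Fin.last k) = F.natDegree) (α : ℚ) :
    val (fun i => F.support.orderEmbOfFin h i) (fun i => F.coeff (F.support.orderEmbOfFin h i)) α =
      Nv F α := by
  classical
  unfold val Nv
  simp only [hlast]
  have h1 : ∑ i : Fin (k + 1), F.coeff (F.support.orderEmbOfFin h i) *
      (α.num ^ (F.support.orderEmbOfFin h i) *
        (α.den : ℤ) ^ (F.natDegree - F.support.orderEmbOfFin h i)) =
      ∑ j ∈ F.support, F.coeff j * (α.num ^ j * (α.den : ℤ) ^ (F.natDegree - j)) := by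
    conv_rhs => rw [← Finset.map_orderEmbOfFin_univ F.support h]
    rw [Finset.sum_map]
    rfl
  rw [h1]
  have h2 : F.support ⊆ Finset.range (F.natDegree + 1) := by
    intro j hj
    rw [Finset.mem_range]
    have := le_natDegree_of_mem_supp j hj
    omega
  rw [Finset.sum_subset h2]
  · exact Finset.sum_congr rfl fun j _ => by ring
  · intro j _ hj
    rw [notMem_support_iff.1 hj, zero_mul]

theorem bound (k D : ℕ) (α : Fin (3 * k * (k + 1) + 1) → ℚ) (hα : ∀ l, 0 < α l)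
    (hinj : Function.Injective α) : ∃ B : ℕ, ∀ F : ℤ[X], F.support.card = k + 1 →
      F.coeff 0 ≠ 0 → (∀ p : ℕ, p.Prime → ∃ j, ¬ (p : ℤ) ∣ F.coeff j) →
      (∀ l, ∀ p : ℕ, p.Prime → D < p → ¬ (p : ℤ) ∣ Nv F (α l)) →
      F.natDegree ≤ B ∧ ∀ j, (F.coeff j).natAbs ≤ B := by
  classical
  by_contra hcon
  push Not at hcon
  choose F hF hF0 hFp hFs hFb using hcon
  have hmem : ∀ n j, (F n).coeff j ≠ 0 → ∃ i, (F n).support.orderEmbOfFin (hF n) i = j := by
    intro n j hj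
    have h1 : j ∈ Set.range ((F n).support.orderEmbOfFin (hF n)) := by
      rw [Finset.range_orderEmbOfFin]
      exact Finset.mem_coe.2 (mem_support_iff.2 hj)
    exact h1
  have hlast : ∀ n, (F n).support.orderEmbOfFin (hF n) (Fin.last k) = (F n).natDegree := by
    intro n
    have h0 : F n ≠ 0 := fun h => hF0 n (by rw [h]; simp)
    apply le_antisymm
    · exact le_natDegree_of_mem_supp _ (Finset.orderEmbOfFin_mem _ _ _)
    · obtain ⟨i, hi⟩ := hmem n (F n).natDegree (leadingCoeff_ne_zero.2 h0)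
      rw [← hi]
      exact ((F n).support.orderEmbOfFin (hF n)).monotone (Fin.le_last i)
  refine seq k D α hα hinj (fun n i => (F n).support.orderEmbOfFin (hF n) i)
    (fun n i => (F n).coeff ((F n).support.orderEmbOfFin (hF n) i))
    (fun n => ((F n).support.orderEmbOfFin (hF n)).strictMono) ?_ ?_ ?_ ?_ ?_
  · intro n
    obtain ⟨i, hi⟩ := hmem n 0 (hF0 n)
    have h1 := ((F n).support.orderEmbOfFin (hF n)).monotone (Fin.zero_le i)
    rw [hi] at h1
    exact Nat.le_zero.1 h1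
  · intro n i
    exact mem_support_iff.1 (Finset.orderEmbOfFin_mem _ _ _)
  · intro n p hp
    obtain ⟨j, hj⟩ := hFp n p hp
    obtain ⟨i, hi⟩ := hmem n j (fun h => hj (by rw [h]; exact dvd_zero _))
    refine ⟨i, ?_⟩
    show ¬ (p : ℤ) ∣ (F n).coeff ((F n).support.orderEmbOfFin (hF n) i)
    rw [hi]
    exact hj
  · intro n l p hp hpD
    rw [Nv_eq_val (F n) (hF n) (hlast n)]
    exact hFs n l p hp hpD
  · intro n hn
    have hn' : (F n).natDegree ≤ n := by
      rw [← hlast n]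
      exact hn
    obtain ⟨j, hj⟩ := hFb n hn'
    obtain ⟨i, hi⟩ := hmem n j (fun h => by rw [h] at hj; simp at hj)
    refine ⟨i, ?_⟩
    show n < ((F n).coeff ((F n).support.orderEmbOfFin (hF n) i)).natAbs
    rw [hi]
    exact hj

theorem coeff_neg (F : ℤ[X]) (j : ℕ) : (F.comp (-X)).coeff j = (-1) ^ j * F.coeff j := by
  have h1 : (-X : ℤ[X]) = C (-1) * X := by simp
  rw [h1, comp_C_mul_X_coeff, mul_comm]

theorem natDegree_neg' (F : ℤ[X]) : (F.comp (-X)).natDegree = F.natDegree := by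
  rw [natDegree_comp]
  simp

theorem support_neg' (F : ℤ[X]) : (F.comp (-X)).support = F.support := by
  ext j
  rw [mem_support_iff, mem_support_iff, coeff_neg]
  simp

theorem Nv_neg (F : ℤ[X]) (α : ℚ) : Nv (F.comp (-X)) (-α) = Nv F α := by
  unfold Nv
  rw [natDegree_neg', Rat.neg_num, Rat.neg_den]
  refine Finset.sum_congr rfl fun j _ => ?_
  rw [coeff_neg]
  have h1 : ((-1 : ℤ)) ^ j * (-1) ^ j = 1 := by
    rw [← mul_pow]
    simp
  rw [neg_pow α.num]
  linear_combination (F.coeff j * α.num ^ j * (α.den : ℤ) ^ (F.natDegree - j)) * h1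

theorem bound2 (k D : ℕ) (α : Fin (3 * k * (k + 1) + 1) → ℚ)
    (hα : (∀ l, 0 < α l) ∨ (∀ l, α l < 0))
    (hinj : Function.Injective α) : ∃ B : ℕ, ∀ F : ℤ[X], F.support.card = k + 1 →
      F.coeff 0 ≠ 0 → (∀ p : ℕ, p.Prime → ∃ j, ¬ (p : ℤ) ∣ F.coeff j) →
      (∀ l, ∀ p : ℕ, p.Prime → D < p → ¬ (p : ℤ) ∣ Nv F (α l)) →
      F.natDegree ≤ B ∧ ∀ j, (F.coeff j).natAbs ≤ B := by
  rcases hα with hα | hα
  · exact bound k D α hα hinj
  obtain ⟨B, hB⟩ := bound k D (fun l => -α l) (fun l => by linarith [hα l])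
    (fun l l' h => hinj (neg_injective h))
  refine ⟨B, fun F hF hF0 hFp hFs => ?_⟩
  have hunit : ∀ j, IsUnit ((-1 : ℤ) ^ j) := fun j => (isUnit_one.neg).pow j
  obtain ⟨h1, h2⟩ := hB (F.comp (-X)) (by rw [support_neg']; exact hF) (by
    rw [coeff_neg, pow_zero, one_mul]; exact hF0) (fun p hp => by
    obtain ⟨j, hj⟩ := hFp p hp
    refine ⟨j, fun h => hj ?_⟩
    rw [coeff_neg] at h
    exact (hunit j).dvd_mul_left.1 h) (fun l p hp hpD => by
    show ¬ (p : ℤ) ∣ Nv (F.comp (-X)) (-α l)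
    rw [Nv_neg]
    exact hFs l p hp hpD)
  rw [natDegree_neg'] at h1
  refine ⟨h1, fun j => ?_⟩
  have h3 := h2 j
  rw [coeff_neg, Int.natAbs_mul, Int.natAbs_pow] at h3
  simpa using h3

theorem aeval_factor {F A Q : ℤ[X]} (hF : Irreducible F) (hFA : F = A * Q) (hA : ¬ IsUnit A)
    {t : ℂ} (ht : aeval t F = 0) : aeval t A = 0 := by
  have hQ : IsUnit Q := (hF.isUnit_or_isUnit hFA).resolve_left hA
  have h1 : IsUnit (aeval t Q) := hQ.map (aeval t)
  rw [hFA, map_mul] at ht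
  exact (mul_eq_zero.1 ht).resolve_right h1.ne_zero

theorem finite_smooth (k D : ℕ) (α : Fin (3 * k * (k + 1) + 1) → ℚ)
    (hα : (∀ l, 0 < α l) ∨ (∀ l, α l < 0)) (hinj : Function.Injective α) :
    {t : ℂ | t ≠ 0 ∧ ∃ F : ℤ[X], Irreducible F ∧ F.support.card = k + 1 ∧ aeval t F = 0 ∧
      ∀ l, ∀ p : ℕ, p.Prime → D < p → ¬ (p : ℤ) ∣ Nv F (α l)}.Finite := by
  classical
  obtain ⟨B, hB⟩ := bound2 k D α hα hinj
  have hfin := bUnion_roots_finite (Int.castRingHom ℂ) B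
    (U := (Finset.Icc (-(B : ℤ)) B : Set ℤ)) (Finset.finite_toSet _)
  refine hfin.subset ?_
  rintro t ⟨ht0, F, hF, hFc, hFt, hFs⟩
  have hF0 : F.coeff 0 ≠ 0 := by
    intro h
    obtain ⟨Q, hQ⟩ := X_dvd_iff.2 h
    have h1 := aeval_factor hF hQ not_isUnit_X hFt
    rw [aeval_X] at h1
    exact ht0 h1
  have hFp : ∀ p : ℕ, p.Prime → ∃ j, ¬ (p : ℤ) ∣ F.coeff j := by
    intro p hp
    by_contra hc
    push Not at hc
    obtain ⟨Q, hQ⟩ := (C_dvd_iff_dvd_coeff (p : ℤ) F).2 hc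
    have h1 := aeval_factor hF hQ (fun h => (Nat.prime_iff_prime_int.1 hp).not_isUnit
      (isUnit_C.1 h)) hFt
    rw [aeval_C] at h1
    simp only [algebraMap_int_eq, eq_intCast, Int.cast_natCast, Nat.cast_eq_zero] at h1
    exact hp.ne_zero h1
  obtain ⟨h1, h2⟩ := hB F hFc hF0 hFp hFs
  refine Set.mem_iUnion.2 ⟨F, Set.mem_iUnion.2 ⟨⟨h1, fun j => ?_⟩, ?_⟩⟩
  · rw [Finset.coe_Icc, Set.mem_Icc]
    have := h2 j
    omega
  · rw [Finset.mem_coe, Multiset.mem_toFinset, mem_roots', IsRoot, eval_map]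
    refine ⟨?_, hFt⟩
    rw [Ne, Polynomial.map_eq_zero_iff (RingHom.injective_int (Int.castRingHom ℂ))]
    exact hF.ne_zero

/-- For all but finitely many `t` with minimal polynomial with at most `s + 1` terms, at least
`M - 6 s (s + 1)` of the values of the minimal polynomial at the `α` have a large prime factor. -/
theorem finite_badS (D s : ℕ) {M L : ℕ} (hM : L + 6 * s * (s + 1) ≤ M) (α : Fin M → ℚ)
    (hα : Function.Injective α) (hα0 : ∀ l, α l ≠ 0) :
    {t : ℂ | Sparse s t ∧ ¬ ∃ f : Fin L → Fin M, Function.Injective f ∧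
      ∃ G : ℤ[X], Irreducible G ∧ aeval t G = 0 ∧
      ∀ l, ∃ p : ℕ, p.Prime ∧ D < p ∧ (p : ℤ) ∣ Nv G (α (f l))}.Finite := by
  classical
  have hfin : ∀ (k : Fin (s + 1)) (g : {g : Fin (3 * (k : ℕ) * (k + 1) + 1) ↪ Fin M //
      (∀ l, 0 < α (g l)) ∨ (∀ l, α (g l) < 0)}),
      {t : ℂ | t ≠ 0 ∧ ∃ F : ℤ[X], Irreducible F ∧ F.support.card = (k : ℕ) + 1 ∧
        aeval t F = 0 ∧ ∀ l, ∀ p : ℕ, p.Prime → D < p → ¬ (p : ℤ) ∣ Nv F (α (g.1 l))}.Finite :=
    fun k g => finite_smooth k D (fun l => α (g.1 l)) g.2 (hα.comp g.1.injective)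
  refine ((Set.finite_singleton (0 : ℂ)).union
    (Set.finite_iUnion fun k => Set.finite_iUnion fun g => hfin k g)).subset ?_
  rintro t ⟨⟨F, hF, hFs, hFt⟩, hbad⟩
  by_cases ht0 : t = 0
  · exact Or.inl ht0
  right
  let Gd : Finset (Fin M) := Finset.univ.filter fun l =>
    ∃ p : ℕ, p.Prime ∧ D < p ∧ (p : ℤ) ∣ Nv F (α l)
  have hcard : Gd.card < L := by
    by_contra hge
    push Not at hge
    apply hbad
    obtain ⟨S, hS, hSc⟩ := Finset.exists_subset_card_eq hge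
    refine ⟨fun l => S.orderEmbOfFin hSc l, (S.orderEmbOfFin hSc).injective, F, hF, hFt,
      fun l => ?_⟩
    exact (Finset.mem_filter.1 (hS (Finset.orderEmbOfFin_mem S hSc l))).2
  have hcompl : 6 * s * (s + 1) + 1 ≤ Gdᶜ.card := by
    rw [Finset.card_compl, Fintype.card_fin]
    omega
  have hsupp : 0 < F.support.card := Finset.card_pos.2 (support_nonempty.2 hF.ne_zero)
  obtain ⟨k, hk⟩ : ∃ k, F.support.card = k + 1 := ⟨F.support.card - 1, by omega⟩
  have hks : k ≤ s := by omega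
  have hkk : 3 * k * (k + 1) ≤ 3 * s * (s + 1) :=
    Nat.mul_le_mul (Nat.mul_le_mul_left _ hks) (by omega)
  have hsplit := Finset.card_filter_add_card_filter_not (s := Gdᶜ) (fun l => 0 < α l)
  have h6 : 6 * s * (s + 1) = 2 * (3 * s * (s + 1)) := by ring
  have hch : ∃ T : Finset (Fin M), T ⊆ Gdᶜ ∧ T.card = 3 * k * (k + 1) + 1 ∧
      ((∀ l ∈ T, 0 < α l) ∨ ∀ l ∈ T, α l < 0) := by
    rcases le_or_gt (3 * s * (s + 1) + 1) (Gdᶜ.filter fun l => 0 < α l).card with h | h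
    · obtain ⟨T, hT, hTc⟩ := Finset.exists_subset_card_eq
        (show 3 * k * (k + 1) + 1 ≤ (Gdᶜ.filter fun l => 0 < α l).card by omega)
      exact ⟨T, hT.trans (Finset.filter_subset _ _), hTc,
        Or.inl fun l hl => (Finset.mem_filter.1 (hT hl)).2⟩
    · obtain ⟨T, hT, hTc⟩ := Finset.exists_subset_card_eq
        (show 3 * k * (k + 1) + 1 ≤ (Gdᶜ.filter fun l => ¬ 0 < α l).card by omega)
      exact ⟨T, hT.trans (Finset.filter_subset _ _), hTc,
        Or.inr fun l hl => lt_of_le_of_ne (not_lt.1 (Finset.mem_filter.1 (hT hl)).2) (hα0 l)⟩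
  obtain ⟨T, hT, hTc, hTs⟩ := hch
  refine Set.mem_iUnion.2 ⟨⟨k, by omega⟩, Set.mem_iUnion.2
    ⟨⟨(T.orderEmbOfFin hTc).toEmbedding, ?_⟩, ht0, F, hF, hk, hFt, fun l p hp hpD hdvd => ?_⟩⟩
  · rcases hTs with h | h
    · exact Or.inl fun l => h _ (Finset.orderEmbOfFin_mem T hTc l)
    · exact Or.inr fun l => h _ (Finset.orderEmbOfFin_mem T hTc l)
  · have h1 := Finset.mem_compl.1 (hT (Finset.orderEmbOfFin_mem T hTc l))
    exact h1 (Finset.mem_filter.2 ⟨Finset.mem_univ _, p, hp, hpD, hdvd⟩)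

end Pool.Agent.V1138.SP
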